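import Mathlib

/-! An isolated zero of a holomorphic map excludes a field of slow directions. -/

namespace Pool.Agent.MP_8d06cc_nt.ISO

open Filter Topology Metric Complex

noncomputable section

/-- the sum over four points of a circle -/
def s4 (g : ℂ → ℝ) (ρ : ℝ) : ℝ := g ρ + g (I * ρ) + g (-ρ) + g (-(I * ρ))

lemma s4_exp {φ : ℂ → ℂ} (h : AnalyticAt ℂ φ 0) : ∃ T : ℝ → ℝ, ContinuousAt T 0 ∧
    T 0 = 4 * normSq (deriv φ 0) ∧
    ∀ ρ, s4 (fun z => normSq (φ z)) ρ = 4 * normSq (φ 0) + ρ ^ 2 * T ρ := by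
  obtain ⟨p, hp⟩ := h
  have h2 : AnalyticAt ℂ (dslope (dslope φ 0) 0) 0 :=
    ⟨_, hp.has_fpower_series_dslope_fslope.has_fpower_series_dslope_fslope⟩
  set c := dslope (dslope φ 0) 0
  have e : ∀ z, φ z = φ 0 + z * (deriv φ 0 + z * c z) := fun z => by
    have a1 := sub_smul_dslope φ 0 z
    have a2 := sub_smul_dslope (dslope φ 0) 0 z
    rw [dslope_same] at a2
    simp only [sub_zero, smul_eq_mul] at a1 a2
    rw [a2, add_sub_cancel, a1, add_sub_cancel]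
  have hc : ∀ u : ℂ, ContinuousAt (fun ρ : ℝ => c (u * ρ)) 0 := fun u =>
    ContinuousAt.comp_of_eq (f := fun ρ : ℝ => u * ρ) h2.continuousAt (by fun_prop) (by simp)
  set a := φ 0
  set b := deriv φ 0
  let t : ℂ → ℝ → ℝ := fun u ρ =>
    2 * (a * starRingEnd ℂ (u ^ 2 * c (u * ρ))).re + normSq (u * (b + u * ρ * c (u * ρ)))
  have ht : ∀ u, ContinuousAt (t u) 0 := fun u => by
    have := hc u
    have a1 : ContinuousAt (fun ρ : ℝ => a * starRingEnd ℂ (u ^ 2 * c (u * ρ))) 0 :=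
      continuousAt_const.mul (continuous_conj.continuousAt.comp (continuousAt_const.mul this))
    have a2 : ContinuousAt (fun ρ : ℝ => u * (b + u * ρ * c (u * ρ))) 0 :=
      continuousAt_const.mul (continuousAt_const.add
        ((continuousAt_const.mul continuous_ofReal.continuousAt).mul this))
    exact (continuousAt_const.mul (continuous_re.continuousAt.comp a1)).add
      (continuous_normSq.continuousAt.comp a2)
  have k : ∀ (u : ℂ) (ρ : ℝ), normSq (φ (u * ρ)) =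
      normSq a + 2 * ρ * (a * starRingEnd ℂ (u * b)).re + ρ ^ 2 * t u ρ := fun u ρ => by
    rw [e]
    simp only [t, normSq_apply, add_re, add_im, mul_re, mul_im, ofReal_re, ofReal_im, conj_re,
      conj_im, sq]
    ring
  refine ⟨fun ρ => t 1 ρ + t I ρ + t (-1) ρ + t (-I) ρ,
    (((ht 1).add (ht I)).add (ht (-1))).add (ht (-I)), ?_, fun ρ => ?_⟩
  · simp [t]
    ring
  · have k1 := k 1 ρ
    have k2 := k I ρ
    have k3 := k (-1) ρ
    have k4 := k (-I) ρ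
    simp only [one_mul, neg_mul, map_neg, mul_neg, neg_re] at k1 k2 k3 k4
    simp only [s4, k1, k2, k3, k4]
    ring

/-- the square of the euclidean norm -/
def nq {ι : Type} [Fintype ι] (v : ι → ℂ) : ℝ := ∑ i, normSq (v i)

variable {ι κ : Type} [Fintype ι] [Fintype κ]

lemma nq_cont : Continuous (nq : (ι → ℂ) → ℝ) :=
  continuous_finsetSum _ fun i _ => continuous_normSq.comp (continuous_apply i)

lemma nq_le (v : ι → ℂ) : nq v ≤ Fintype.card ι * ‖v‖ ^ 2 := by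
  refine (Finset.sum_le_card_nsmul _ _ (‖v‖ ^ 2) fun i _ => ?_).trans_eq (by simp)
  rw [normSq_eq_norm_sq]
  exact pow_le_pow_left₀ (norm_nonneg _) (norm_le_pi_norm v i) 2

lemma nq_nonneg (v : ι → ℂ) : 0 ≤ nq v := Finset.sum_nonneg fun _ _ => normSq_nonneg _

lemma le_nq (v : ι → ℂ) : ‖v‖ ^ 2 ≤ nq v := by
  rw [← Real.le_sqrt (norm_nonneg _) (nq_nonneg v), pi_norm_le_iff_of_nonneg (Real.sqrt_nonneg _)]
  intro i
  rw [Real.le_sqrt (norm_nonneg _) (nq_nonneg v), ← normSq_eq_norm_sq]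
  exact Finset.single_le_sum (f := fun i => normSq (v i)) (fun _ _ => normSq_nonneg _)
    (Finset.mem_univ i)

lemma s4_nq {φ : ℂ → ι → ℂ} (h : AnalyticAt ℂ φ 0) : ∃ T : ℝ → ℝ, ContinuousAt T 0 ∧
    T 0 = 4 * nq (deriv φ 0) ∧ ∀ ρ, s4 (fun z => nq (φ z)) ρ = 4 * nq (φ 0) + ρ ^ 2 * T ρ := by
  choose T t1 t2 t3 using fun i => s4_exp (analyticAt_pi_iff.1 h i)
  refine ⟨fun ρ => ∑ i, T i ρ, tendsto_finsetSum _ fun i _ => t1 i, ?_, fun ρ => ?_⟩
  · simp only [t2, nq, Finset.mul_sum, deriv_pi (differentiableAt_pi.1 h.differentiableAt)]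
  · simp only [nq, Finset.mul_sum, ← Finset.sum_add_distrib, ← t3, s4]

/-- the second order condition at a minimum -/
lemma second {φ : ℂ → ι → ℂ} {ψ : ℂ → κ → ℂ} (h : AnalyticAt ℂ φ 0) (h' : AnalyticAt ℂ ψ 0)
    {ε : ℝ} (m : IsLocalMin (fun z => nq (φ z) - ε * nq (ψ z)) 0) :
    ε * nq (deriv ψ 0) ≤ nq (deriv φ 0) := by
  obtain ⟨T, t1, t2, t3⟩ := s4_nq h
  obtain ⟨S, s1, s2, s3⟩ := s4_nq h'
  have hc : ∀ u : ℂ, Tendsto (fun ρ : ℝ => u * ρ) (𝓝 0) (𝓝 0) := fun u =>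
    Continuous.tendsto' (by fun_prop) _ _ (by simp)
  have key : ∀ᶠ ρ in 𝓝[≠] (0 : ℝ), ε * S ρ ≤ T ρ := by
    filter_upwards [self_mem_nhdsWithin, nhdsWithin_le_nhds ((hc 1).eventually m),
      nhdsWithin_le_nhds ((hc I).eventually m), nhdsWithin_le_nhds ((hc (-1)).eventually m),
      nhdsWithin_le_nhds ((hc (-I)).eventually m)] with ρ h0 a1 a2 a3 a4
    have b1 := t3 ρ
    have b2 := s3 ρ
    simp only [one_mul, neg_mul] at a1 a2 a3 a4
    simp only [s4] at b1 b2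
    refine le_of_mul_le_mul_left ?_ (sq_pos_of_ne_zero (a := ρ) h0)
    have b3 := congrArg (fun x => ε * x) b2
    linarith
  have := le_of_tendsto_of_tendsto ((s1.tendsto.const_mul ε).mono_left nhdsWithin_le_nhds)
    (t1.tendsto.mono_left nhdsWithin_le_nhds) key
  rw [s2, t2] at this
  linarith

theorem iso_min {w : (κ → ℂ) → ι → ℂ} {τ₀ : κ → ℂ} {K : (κ → ℂ) → (κ → ℂ) → Prop} {C : ℝ}
    (hw : ∀ᶠ τ in 𝓝 τ₀, DifferentiableAt ℂ w τ) (h0 : w τ₀ = 0) (iso : ∀ᶠ τ in 𝓝[≠] τ₀, w τ ≠ 0)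
    (est : ∀ᶠ τ in 𝓝 τ₀, ∀ ξ, K τ ξ → ‖fderiv ℂ w τ ξ‖ ≤ C * ‖w τ‖ * ‖ξ‖) :
    ∃ᶠ τ in 𝓝 τ₀, ∀ ξ, K τ ξ → ξ = 0 := by
  intro hn
  have sm : ∀ᶠ τ in 𝓝 τ₀, Fintype.card ι * C ^ 2 * nq (τ - τ₀) < 1 :=
    ContinuousAt.eventually_lt ((nq_cont.comp (continuous_sub_right τ₀)).const_mul _).continuousAt
      continuousAt_const (by simp [nq])
  obtain ⟨r, r0, hr⟩ := nhds_basis_closedBall.eventually_iff.1 (hw.eventually_nhds.and
    ((eventually_nhdsWithin_iff.1 iso).and (est.and (sm.and hn))))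
  have wc : ContinuousOn (fun τ => nq (w τ)) (closedBall τ₀ r) := nq_cont.comp_continuousOn
    fun τ h => (hr h).1.self_of_nhds.continuousAt.continuousWithinAt
  obtain ⟨a, a0, ha⟩ := (isCompact_sphere τ₀ r).exists_forall_le' (a := 0)
    (wc.mono sphere_subset_closedBall) fun τ h => lt_of_lt_of_le (pow_pos (norm_pos_iff.2
      ((hr (sphere_subset_closedBall h)).2.1 (ne_of_mem_sphere h r0.ne'))) 2) (le_nq _)
  set ε := a / (Fintype.card κ * r ^ 2 + 1) with hε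
  have e0 : 0 < ε := by positivity
  obtain ⟨τ, h1, h2⟩ := (isCompact_closedBall τ₀ r).exists_isMinOn ⟨_, mem_closedBall_self r0.le⟩
    (f := fun τ => nq (w τ) - ε * nq (τ - τ₀))
    (wc.sub ((nq_cont.comp (continuous_sub_right τ₀)).const_mul ε).continuousOn)
  have h3 : nq (w τ) ≤ ε * nq (τ - τ₀) := by
    have := h2 (mem_closedBall_self r0.le)
    simp only [Set.mem_ofPred_eq, h0, sub_self] at this
    have z1 : nq (0 : ι → ℂ) = 0 := by simp [nq]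
    have z2 : nq (0 : κ → ℂ) = 0 := by simp [nq]
    rw [z1, z2] at this
    linarith
  have h4 : τ ∈ ball τ₀ r := lt_of_le_of_ne h1 fun q => by
    have b1 := ha τ q
    have b2 := nq_le (τ - τ₀)
    rw [← dist_eq_norm, q] at b2
    have b3 : ε * (Fintype.card κ * r ^ 2 + 1) = a := div_mul_cancel₀ _ (by positivity)
    nlinarith
  obtain ⟨d1, -, d3, d4, d5⟩ := hr h1
  simp only [not_forall] at d5
  obtain ⟨ξ, k1, k2⟩ := d5
  have l0 : ContinuousAt (fun z : ℂ => τ + z • ξ) 0 := by fun_prop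
  have l1 : Tendsto (fun z : ℂ => τ + z • ξ) (𝓝 0) (𝓝 τ) := by simpa using l0.tendsto
  have l2 : ∀ z : ℂ, HasDerivAt (fun z : ℂ => τ + z • ξ) ξ z := fun z => by
    simpa using ((hasDerivAt_id z).smul_const ξ).const_add τ
  have an : AnalyticAt ℂ (fun z : ℂ => w (τ + z • ξ)) 0 :=
    analyticAt_iff_eventually_differentiableAt.2 ((l1.eventually d1).mono fun z hz =>
      hz.comp z (l2 z).differentiableAt)
  have an' : AnalyticAt ℂ (fun z : ℂ => τ + z • ξ - τ₀) 0 := by fun_prop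
  have lm : IsLocalMin (fun z : ℂ => nq (w (τ + z • ξ)) - ε * nq (τ + z • ξ - τ₀)) 0 := by
    filter_upwards [l1.eventually (isOpen_ball.mem_nhds h4)] with z hz
    simpa using h2 (ball_subset_closedBall hz)
  have key := second an an' lm
  have e1 : deriv (fun z : ℂ => w (τ + z • ξ)) 0 = fderiv ℂ w τ ξ :=
    (d1.self_of_nhds.hasFDerivAt.comp_hasDerivAt_of_eq 0 (l2 0) (by simp)).deriv
  rw [e1, ((l2 0).sub_const τ₀).deriv] at key
  have c1 := nq_le (fderiv ℂ w τ ξ)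
  have c2 := pow_le_pow_left₀ (norm_nonneg _) (d3 ξ k1) 2
  have c3 := (le_nq (w τ)).trans h3
  have c4 := le_nq ξ
  have c5 : 0 < ‖ξ‖ ^ 2 := pow_pos (norm_pos_iff.2 k2) 2
  have c6 : ε * ‖ξ‖ ^ 2 ≤ Fintype.card ι * C ^ 2 * nq (τ - τ₀) * (ε * ‖ξ‖ ^ 2) :=
    calc ε * ‖ξ‖ ^ 2 ≤ Fintype.card ι * (C * ‖w τ‖ * ‖ξ‖) ^ 2 :=
          ((mul_le_mul_of_nonneg_left c4 e0.le).trans key).trans (c1.trans (by gcongr))
      _ = Fintype.card ι * C ^ 2 * ‖w τ‖ ^ 2 * ‖ξ‖ ^ 2 := by ring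
      _ ≤ Fintype.card ι * C ^ 2 * (ε * nq (τ - τ₀)) * ‖ξ‖ ^ 2 := by gcongr
      _ = _ := by ring
  nlinarith [mul_pos e0 c5]

end

end Pool.Agent.MP_8d06cc_nt.ISO
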