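import Pool.Agent.MP_8d06cc_nt.ISO.Pell
import Pool.Agent.MP_8d06cc_nt.ISO.Min

/-! Block ISO: an isolated torsion point forces non-degeneracy. -/

namespace Pool.Agent.MP_8d06cc_nt.ISO

open Filter Topology Polynomial
open AB

noncomputable section

section

variable {T : Type} [NormedAddCommGroup T] [NormedSpace ℂ T] {τ₀ : T}

lemma Base.ra (G : Base τ₀) {a : ℂ} (hl : G.lam ^ 2 ≠ (fz (G.e τ₀)).eval a) (p : J8) :
    G.r p ≠ a := fun h => hl (by rw [← h, G.re])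

theorem outH [CompleteSpace T] (hB : StmtBREL) (G : Base τ₀) {a b : T → ℂ}
    (ha : ContDiffAt ℂ 1 a τ₀) (hb : ContDiffAt ℂ 1 b τ₀) (b0 : b τ₀ ≠ 0)
    (ab : ∀ t, b t ^ 2 = (fz (G.e t)).eval (a t)) (hl : G.lam ^ 2 ≠ (fz (G.e τ₀)).eval (a τ₀)) :
    Nonempty (Out G a b (-1) 0 0 (-C G.lam) 1) :=
  pkg hB G ha hb b0 (.of_forall ab) (G.ra hl) (by simp) (by simp) (by simp)
    (by rw [← G.fr]; simp) (fun p => by simpa using G.l0) (fun p => by simp) (fun h => (h rfl).elim)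
    (.inl rfl)

theorem outP [CompleteSpace T] (hB : StmtBREL) (G : Base τ₀) {a b : T → ℂ} {c : ℂ} {k N : ℕ}
    {A B : ℂ[X]} (ha : ContDiffAt ℂ 1 a τ₀) (hb : ContDiffAt ℂ 1 b τ₀) (b0 : b τ₀ ≠ 0)
    (ab : ∀ t, b t ^ 2 = (fz (G.e t)).eval (a t)) (hl : G.lam ^ 2 ≠ (fz (G.e τ₀)).eval (a τ₀))
    (c0 : c ≠ 0) (dA : A.natDegree ≤ N) (dB : B.natDegree + 4 ≤ N)
    (e : A ^ 2 - fz (G.e τ₀) * B ^ 2 = C c * (X - C (a τ₀)) ^ k)
    (h : k ≠ 0 → A.eval (a τ₀) ≠ 0 ∧ A.eval (a τ₀) + B.eval (a τ₀) * b τ₀ = 0)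
    (top : k = 2 * N ∨ (k < 2 * N ∧ A.coeff N ≠ 0)) :
    Nonempty (Out G a b (-c) k N (B * fz (G.e τ₀) - C G.lam * A) (A - C G.lam * B)) := by
  refine pkg hB G ha hb b0 (.of_forall ab) (G.ra hl) (neg_ne_zero.2 c0) ?_ ?_ ?_ (fun p z => ?_)
    (fun p => ?_) (fun k0 => ⟨fun z => ?_, ?_⟩) (top.imp_right fun q => ⟨q.1, ?_⟩)
  · have n1 := natDegree_sub_le (B * fz (G.e τ₀)) (C G.lam * A)
    have n2 := natDegree_mul_le (p := B) (q := fz (G.e τ₀))
    have n3 := natDegree_C_mul_le G.lam A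
    have n4 := fz_deg (G.e τ₀)
    omega
  · have n1 := natDegree_sub_le A (C G.lam * B)
    have n3 := natDegree_C_mul_le G.lam B
    omega
  · rw [← G.fr, map_neg, map_pow]
    linear_combination (C G.lam ^ 2 - fz (G.e τ₀)) * e
  · have v := congrArg (eval (G.r p)) e
    simp only [eval_sub, eval_mul, eval_pow, eval_C, eval_X, G.re] at v z
    refine mul_ne_zero G.l0 (mul_ne_zero c0 (pow_ne_zero k (sub_ne_zero.2 (G.ra hl p)))) ?_
    linear_combination -G.lam * v - (A.eval (G.r p) + G.lam * B.eval (G.r p)) * z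
  · simp only [eval_sub, eval_mul, eval_C, G.re]
    ring
  · simp only [eval_sub, eval_mul, eval_C, ← ab] at z hl
    refine mul_ne_zero (h k0).1 (sub_ne_zero.2 hl) ?_
    linear_combination (b τ₀ - G.lam) * (z - b τ₀ * (h k0).2)
  · simp only [eval_sub, eval_mul, eval_C, ← ab]
    linear_combination (b τ₀ - G.lam) * (h k0).2
  · rw [coeff_sub, coeff_C_mul, coeff_eq_zero_of_natDegree_lt (p := B) (by omega), mul_zero,
      sub_zero]
    exact q.2

lemma Base.cl (G : Base τ₀) {ε : ℝ} (h : 0 < ε) :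
    ∀ᶠ t in 𝓝 τ₀, Cl (fz (G.e τ₀)) ε (fz (G.e t)) := by
  filter_upwards [eventually_all.2 fun i : Fin 9 =>
    (G.sf i).continuousAt.eventually (Metric.ball_mem_nhds _ h)] with t q
  refine ⟨fz_monic _, fz_deg _, fun i => ?_⟩
  by_cases l : i < 9
  · exact mem_ball_iff_norm.1 (q ⟨i, l⟩)
  · rw [coeff_eq_zero_of_natDegree_lt (by rw [fz_deg]; omega),
      coeff_eq_zero_of_natDegree_lt (by rw [fz_deg]; omega)]
    simpa using h

end

theorem core (hR : StmtRN) (hB : StmtBREL) {d m N : ℕ} {τ₀ : Fin d → ℂ} (G : Base τ₀)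
    (z : (Fin d → ℂ) → NF ℂ m) (T : TD ℂ m) (hf : ∀ t, (z t).f = fz (G.e t))
    (ha : ∀ i, ContDiffAt ℂ 1 (fun t => (z t).a i) τ₀)
    (hb : ∀ i, ContDiffAt ℂ 1 (fun t => (z t).b i) τ₀)
    (hl : ∀ i, G.lam ^ 2 ≠ (fz (G.e τ₀)).eval ((z τ₀).a i)) (tor : (z τ₀).Tor N T)
    (nn : ¬ Near (z τ₀) N T) (uq : ∀ᶠ t in 𝓝[≠] τ₀,
      ¬ ((z t).f = (z τ₀).f ∧ (z t).a = (z τ₀).a ∧ (z t).b = (z τ₀).b)) :
    ∃ (f0 : ℂ[X]) (Z : Finset ℂ) (rn : RN f0 Z) (s : Fin rn.n), ∃ᶠ τ in 𝓝 τ₀,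
      Cl f0 rn.ε (fz (G.e τ)) ∧ (∀ i, ∃ u ∈ Z, ‖(z τ).a i - u‖ < rn.δ) ∧
      ∀ ξ, (∀ i j, Bt (rn.Λ (fz (G.e τ)) s) (G.e τ) (fun i => dd (G.e · i) τ ξ) ((z τ).a i)
        ((z τ).b i) (dd (fun t => (z t).a i) τ ξ) j = 0) →
        (∀ j, BtI (rn.Λ (fz (G.e τ)) s) (G.e τ) (fun i => dd (G.e · i) τ ξ) j = 0) → ξ = 0 := by
  classical
  have ab : ∀ i t, (z t).b i ^ 2 = (fz (G.e t)).eval ((z t).a i) := fun i t => hf t ▸ (z t).hb i
  let A' : Option (Fin (m + 2)) → ℂ[X] := fun i => i.elim T.A0 T.A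
  let B' : Option (Fin (m + 2)) → ℂ[X] := fun i => i.elim T.B0 T.B
  let pt : Option (Fin (m + 2)) → Fin (m + 2) := fun i => i.elim 0 id
  let k : Option (Fin (m + 2)) → ℕ := fun i => i.elim 0 fun _ => 2 * N
  have N4 : 4 ≤ N := le_of_add_le_right tor.dB0
  have t0 : T.A0.coeff N ≠ 0 := by
    rw [← tor.dA0]
    exact leadingCoeff_ne_zero.2 fun h => by have := tor.dA0; simp [h] at this; omega
  have dA : ∀ i, (A' i).natDegree ≤ N := fun i => by
    cases i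
    exacts [tor.dA0.le, tor.dA _]
  have dB : ∀ i, (B' i).natDegree + 4 ≤ N := fun i => by
    cases i
    exacts [tor.dB0, tor.dB _]
  obtain ⟨H⟩ := outH hB G (ha 0) (hb 0) ((z τ₀).b0 0) (ab 0) (hl 0)
  have : ∀ i, ∃ c : ℂ, c ≠ 0 ∧ Nonempty (Out G (fun t => (z t).a (pt i)) (fun t => (z t).b (pt i))
      (-c) (k i) N (B' i * fz (G.e τ₀) - C G.lam * A' i) (A' i - C G.lam * B' i)) := fun i => by
    cases i with
    | none =>
      obtain ⟨c, c0, e⟩ := tor.eq0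
      exact ⟨c, c0, outP hB G (ha _) (hb _) ((z τ₀).b0 _) (ab _) (hl _) c0 (dA _) (dB _)
        (by simpa [A', B', k, ← hf] using e) (fun h => (h rfl).elim)
        (.inr ⟨by simp only [k, Option.elim_none]; omega, t0⟩)⟩
    | some i =>
      obtain ⟨c, c0, e⟩ := tor.eqn i
      exact ⟨c, c0, outP hB G (ha _) (hb _) ((z τ₀).b0 _) (ab _) (hl _) c0 (dA _) (dB _)
        (hf τ₀ ▸ e) (fun _ => ⟨tor.hA i, tor.sgn i⟩) (.inl rfl)⟩
  choose c c0 O using this
  replace O := fun i => (O i).some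
  obtain ⟨rn⟩ := hR (fz (G.e τ₀)) (Finset.univ.image (z τ₀).a ∪ Finset.univ.image G.r)
    (fz_monic _) (fz_deg _) (hf τ₀ ▸ (z τ₀).sep)
  obtain ⟨s, -⟩ := rn.far ∅ (by simp)
  have hc := G.cl rn.ε0
  have hZ : ∀ p, G.r p ∈ Finset.univ.image (z τ₀).a ∪ Finset.univ.image G.r := fun p => by simp
  have hZ' : ∀ i, (z τ₀).a i ∈ Finset.univ.image (z τ₀).a ∪ Finset.univ.image G.r := fun p => by
    simp
  have fa := eventually_all.2 fun i => ev_far rn s (ha i).continuousAt (hZ' i)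
  have nΓ : ∀ {u : ℂ}, (∀ v ∈ rn.Γ s, rn.δ ≤ ‖v - u‖) → u ∉ rn.Γ s := fun h q =>
    (h _ q).not_gt (by simpa using rn.δ0)
  let w : (Fin d → ℂ) → Option (Fin (m + 2)) × Fin 3 → ℂ := fun t i =>
    (O i.1).x t (.inr i.2) - H.x t (.inr i.2)
  choose K hK using fun i : Option (Fin (m + 2)) × Fin 3 => est G rn s hc hZ H.sx (O i.1).sx H.x0
    (O i.1).x0 (fun t q => by rw [H.xl, (O i.1).xl]) i.2
  have d1 := eventually_all.2 fun i => eventually_all.2 fun p => ev_diff ((O i).sx p)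
  have d2 := eventually_all.2 fun p => ev_diff (H.sx p)
  have dw : ∀ᶠ t in 𝓝 τ₀, DifferentiableAt ℂ w t := by
    filter_upwards [d1, d2] with t q1 q2
    exact differentiableAt_pi.2 fun i => (q1 _ _).sub (q2 _)
  refine ⟨_, _, rn, s, ((iso_min (w := w) (C := ∑ i, |K i|) (K := fun τ ξ =>
    (∀ i j, Bt (rn.Λ (fz (G.e τ)) s) (G.e τ) (fun i => dd (G.e · i) τ ξ) ((z τ).a i)
      ((z τ).b i) (dd (fun t => (z t).a i) τ ξ) j = 0) ∧
      ∀ j, BtI (rn.Λ (fz (G.e τ)) s) (G.e τ) (fun i => dd (G.e · i) τ ξ) j = 0) dw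
    (funext fun i => by simp only [w, (O _).x0, H.x0, sub_self, Pi.zero_apply]) ?_
      ?_).and_eventually (hc.and fa)).mono fun τ q => ⟨q.2.1, fun i => ⟨_, hZ' i, (q.2.2 i).1⟩,
        fun ξ k1 k2 => q.1 ξ ⟨k1, k2⟩⟩⟩
  · by_contra h
    have nb : NeBot (𝓝[≠] τ₀ ⊓ 𝓟 {t | w t = 0}) := frequently_iff_neBot.1 (by
      simpa only [not_eventually, ne_eq, not_not] using h)
    have l1 : 𝓝[≠] τ₀ ⊓ 𝓟 {t | w t = 0} ≤ 𝓝 τ₀ := inf_le_left.trans nhdsWithin_le_nhds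
    choose A B lA lB hAB using fun i => pell G H (O i) (.of_forall (ab _)) (dA i) (dB i) l1
      (eventually_inf_principal.2 (.of_forall fun t q => funext fun p => by
        cases p with
        | inl p => rw [H.xl, (O i).xl]
        | inr p => exact sub_eq_zero.1 (congrFun q (i, p))))
    obtain ⟨u, u1, u2⟩ := exists_seq_forall_of_frequently (((eventually_all.2 hAB).and
      (((lA none N).eventually_ne t0).and (uq.filter_mono inf_le_left))).frequently)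
    have u3 := u1.mono_right l1
    refine nn ⟨fun n => z (u n), fun n => ⟨A none (u n), B none (u n), fun i => A (some i) (u n),
      fun i => B (some i) (u n)⟩, fun n => ?_, fun n => (u2 n).2.2, fun i => ?_,
      tendsto_pi_nhds.2 fun i => (ha i).continuousAt.tendsto.comp u3,
      tendsto_pi_nhds.2 fun i => (hb i).continuousAt.tendsto.comp u3,
      fun i => (lA none i).comp u1, fun i => (lB none i).comp u1,
      fun j i => (lA (some j) i).comp u1, fun j i => (lB (some j) i).comp u1⟩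
    · obtain ⟨v1, v2, -⟩ := u2 n
      have k0 : 2 * N ≠ 0 := by omega
      exact ⟨(v1 none).1.antisymm (le_natDegree_of_ne_zero v2), (v1 none).2.1,
        ⟨c none, c0 _, by simpa [k, hf] using (v1 none).2.2.1⟩, fun i => (v1 (some i)).1,
        fun i => (v1 (some i)).2.1, fun i => ⟨c (some i), c0 _, hf _ ▸ (v1 (some i)).2.2.1⟩,
        fun i => ((v1 (some i)).2.2.2 k0).1, fun i => ((v1 (some i)).2.2.2 k0).2⟩
    · simp only [hf]
      exact (G.sf i).continuousAt.tendsto.comp u3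
  · have rel := fun i => (O i).rel
    filter_upwards [eventually_all.2 hK, d1, d2, dw, hc, fa, H.rel, eventually_all.2 rel,
      eventually_all.2 fun p => ev_far rn s (H.sx p).continuousAt (by rw [H.x0]; exact hZ p),
      eventually_all.2 fun i => eventually_all.2 fun p =>
        ev_far rn s ((O i).sx p).continuousAt (by rw [(O i).x0]; exact hZ p)]
      with t q1 q2 q3 q4 q5 q6 q7 q8 q9 q10 ξ k1
    refine (pi_norm_le_iff_of_nonneg (by positivity)).2 fun i => ?_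
    have e : fderiv ℂ w t ξ i = dd ((O i.1).x · (.inr i.2)) t ξ - dd (H.x · (.inr i.2)) t ξ := by
      have := fderiv_apply q4 i
      rw [fderiv_fun_sub (q2 _ _) (q3 _)] at this
      exact (congrArg (· ξ) this).symm
    have b1 := q1 i ξ
      (q7 ξ _ _ (rn.proj _ s q5) (fun p => nΓ (q9 p).2) (nΓ (q6 _).2) k1.2 (k1.1 _))
      (q8 i.1 ξ _ _ (rn.proj _ s q5) (fun p => nΓ (q10 _ p).2) (nΓ (q6 _).2) k1.2 (k1.1 _))
    rw [e, mul_assoc]
    refine b1.trans (mul_le_mul ((le_abs_self _).trans (Finset.single_le_sum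
      (fun j _ => abs_nonneg (K j)) (Finset.mem_univ i))) (mul_le_mul_of_nonneg_right
        ((pi_norm_le_iff_of_nonneg (norm_nonneg _)).2 fun p => norm_le_pi_norm (w t) (i.1, p))
        (norm_nonneg _)) (by positivity) (by positivity))

/-- the normal form at a complex point -/
def nfOf {R : Type} [CommRing R] {m : ℕ} {e : Fin 8 → R} {a b : Fin (m + 2) → R} (P : Pts e a b)
    (a0 : a 0 = 0) (a1 : a 1 = 1) (φ : R →+* ℂ) : NF ℂ m where
  f := fz fun i => φ (e i)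
  a i := φ (a i)
  b i := φ (b i)
  mon := fz_monic _
  deg := fz_deg _
  sep := separable_prod_X_sub_C_iff.2 fun i j h => by_contra fun n =>
    ((P.de i j n).map φ).ne_zero (by rw [map_sub, sub_eq_zero]; exact h)
  a0 := by rw [a0, map_zero]
  a1 := by rw [a1, map_one]
  ainj i j h := by_contra fun n =>
    ((P.dx i j n).map φ).ne_zero (by rw [map_sub, sub_eq_zero]; exact h)
  hb i := by rw [← fz_map, eval_ev, ← P.eqn, map_pow]
  b0 i := ((P.uy i).map φ).ne_zero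

theorem iso (h1 : StmtRN) (h2 : StmtBREL) : StmtISO := by
  intro E _ _ d t R F m e a b w N T P a0 a1 τ₀ hτ wf wa wb tor nn uq
  have sm : ∀ r, ContDiffAt ℂ 1 (fun τ => F.Y τ r) τ₀ := fun r =>
    ((F.sm r).contDiffAt (F.op.mem_nhds hτ)).of_le one_le_two
  obtain rfl : w = nfOf P a0 a1 (F.Y τ₀) := by
    obtain ⟨f, a', b', _, _, _, _, _, _, _, _⟩ := w
    obtain rfl : f = _ := wf
    obtain rfl : a' = _ := funext wa
    obtain rfl : b' = _ := funext wb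
    rfl
  obtain ⟨G, ge, hl⟩ := base (e := fun τ i => F.Y τ (e i)) (fun i => sm _)
    (separable_prod_X_sub_C_iff.1 (nfOf P a0 a1 (F.Y τ₀)).sep) fun i => F.Y τ₀ (a i)
  obtain ⟨f0, Z, rn, s, h⟩ := core h1 h2 G (fun τ => nfOf P a0 a1 (F.Y τ)) T
    (fun _ => by rw [ge]; rfl) (fun i => sm _) (fun i => sm _) (by rw [ge]; exact hl) tor nn (by
      filter_upwards [self_mem_nhdsWithin, nhdsWithin_le_nhds (F.op.mem_nhds hτ)] with τ q1 q2 q3
      exact q1 (uq τ q2 q3.1.symm (fun i => (congrFun q3.2.1 i).symm)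
        fun i => (congrFun q3.2.2 i).symm))
  obtain ⟨τ, q1, q2⟩ := (h.and_eventually (F.op.mem_nhds hτ)).exists
  rw [ge] at q1
  exact ⟨f0, Z, rn, s, τ, q2, q1⟩

end

end Pool.Agent.MP_8d06cc_nt.ISO
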