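import Mathlib

/-! Deformation of a function on the curve with prescribed zeros and three free zeros. -/

namespace Pool.Agent.MP_8d06cc_nt.ISO

open Filter Topology Polynomial

noncomputable section

/-- the kernel of the linearised equation -/
lemma ker {f A B U U' α β υ : ℂ[X]} {m : ℕ} (hf : f.natDegree = 8)
    (e : A ^ 2 - f * B ^ 2 = U * U') (c : IsCoprime (U * U') A) (U0 : U ≠ 0)
    (dU : U'.natDegree = 3) (dA : A.natDegree ≤ m + 4) (dB : B.natDegree ≤ m)
    (top : A.coeff (m + 4) ≠ 0 ∨ B.coeff m ≠ 0) (dα : α.natDegree ≤ m + 4)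
    (dβ : β.natDegree ≤ m) (dυ : υ.natDegree ≤ 2) (h : 2 * A * α - 2 * f * B * β = U * υ) :
    α = 0 ∧ β = 0 ∧ υ = 0 := by
  have e1 : A * (2 * (A * β - B * α)) = U * (2 * U' * β - B * υ) := by
    linear_combination 2 * β * e - B * h
  obtain ⟨k, hk⟩ := c.of_mul_left_left.dvd_of_dvd_mul_left ⟨_, e1⟩
  have e2 : A * k = 2 * U' * β - B * υ :=
    mul_left_cancel₀ U0 (by linear_combination e1 - A * hk)
  have e3 : f * B * k = 2 * U' * α - A * υ :=
    mul_left_cancel₀ U0 (by linear_combination 2 * α * e - A * h - f * B * hk)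
  have d2 : (2 * U').natDegree ≤ 3 := by
    have := natDegree_mul_le (p := (2 : ℂ[X])) (q := U')
    simp only [natDegree_ofNat] at this
    omega
  have k0 : k = 0 := by
    by_contra q
    rcases top with t | t
    · have a0 := le_natDegree_of_ne_zero t
      have a1 := natDegree_mul (p := A) (fun z => by simp [z] at t) q
      have a2 := natDegree_sub_le (2 * U' * β) (B * υ)
      have a3 := natDegree_mul_le (p := 2 * U') (q := β)
      have a4 := natDegree_mul_le (p := B) (q := υ)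
      rw [e2] at a1
      omega
    · have f0 : f ≠ 0 := fun z => by simp [z] at hf
      have a0 := le_natDegree_of_ne_zero t
      have t' : B ≠ 0 := fun z => by simp [z] at t
      have a1 := natDegree_mul (mul_ne_zero f0 t') q
      have a2 := natDegree_sub_le (2 * U' * α) (A * υ)
      have a3 := natDegree_mul_le (p := 2 * U') (q := α)
      have a4 := natDegree_mul_le (p := A) (q := υ)
      rw [e3, natDegree_mul f0 t'] at a1
      omega
  rw [k0, mul_zero] at e2 e3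
  have u0 : υ = 0 := eq_zero_of_dvd_of_natDegree_lt
    (c.of_mul_left_right.dvd_of_dvd_mul_left ⟨2 * α, by linear_combination e3⟩) (by omega)
  have n0 : 2 * U' ≠ 0 := mul_ne_zero two_ne_zero fun z => by simp [z] at dU
  rw [u0, mul_zero, sub_zero] at e2 e3
  exact ⟨(mul_eq_zero.1 e3.symm).resolve_left n0, (mul_eq_zero.1 e2.symm).resolve_left n0, u0⟩

variable {T : Type} [NormedAddCommGroup T] [NormedSpace ℂ T] {t₀ : T}

/-- polynomials with continuously differentiable coefficients -/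
def Sm (p : T → ℂ[X]) (t₀ : T) : Prop := ∀ k, ContDiffAt ℂ 1 (fun t => (p t).coeff k) t₀

namespace Sm

variable {p q : T → ℂ[X]}

lemma const (p : ℂ[X]) : Sm (fun _ => p) t₀ := fun _ => contDiffAt_const

lemma add (h : Sm p t₀) (h' : Sm q t₀) : Sm (fun t => p t + q t) t₀ := fun k => by
  simpa only [coeff_add] using (h k).add (h' k)

lemma sub (h : Sm p t₀) (h' : Sm q t₀) : Sm (fun t => p t - q t) t₀ := fun k => by
  simpa only [coeff_sub] using (h k).sub (h' k)

lemma mul (h : Sm p t₀) (h' : Sm q t₀) : Sm (fun t => p t * q t) t₀ := fun k => by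
  simpa only [coeff_mul] using ContDiffAt.sum fun x _ => (h x.1).mul (h' x.2)

lemma pow (h : Sm p t₀) (n : ℕ) : Sm (fun t => p t ^ n) t₀ := by
  induction n with
  | zero => simpa only [pow_zero] using const 1
  | succ n ih => simpa only [pow_succ] using ih.mul h

lemma prod {ι : Type} {P : ι → T → ℂ[X]} (s : Finset ι) (h : ∀ i ∈ s, Sm (P i) t₀) :
    Sm (fun t => ∏ i ∈ s, P i t) t₀ := by
  classical
  induction s using Finset.induction_on with
  | empty => simpa only [Finset.prod_empty] using const 1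
  | insert a s ha ih =>
    simpa only [Finset.prod_insert ha] using (h a (Finset.mem_insert_self _ _)).mul
      (ih fun i hi => h i (Finset.mem_insert_of_mem hi))

lemma C {c : T → ℂ} (h : ContDiffAt ℂ 1 c t₀) : Sm (fun t => C (c t)) t₀ := fun k => by
  simp only [coeff_C]
  split_ifs
  exacts [h, contDiffAt_const]

lemma lin {c : T → ℂ} (h : ContDiffAt ℂ 1 c t₀) : Sm (fun t => X - Polynomial.C (c t)) t₀ :=
  (const X).sub (C h)

lemma ofFn {n : ℕ} {v : T → Fin n → ℂ} (h : ContDiffAt ℂ 1 v t₀) :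
    Sm (fun t => ofFn n (v t)) t₀ := fun k => by
  by_cases q : k < n
  · simpa only [ofFn_coeff_eq_val_of_lt _ q] using contDiffAt_pi.1 h _
  · simpa only [ofFn_coeff_eq_zero_of_ge _ (not_lt.1 q)] using contDiffAt_const

lemma comp {T' : Type} [NormedAddCommGroup T'] [NormedSpace ℂ T'] {g : T' → T} {s : T'}
    (h : Sm p (g s)) (hg : ContDiffAt ℂ 1 g s) : Sm (fun x => p (g x)) s :=
  fun k => (h k).comp s hg

lemma eval {x : T → ℂ} {n : ℕ} (h : Sm p t₀) (d : ∀ᶠ t in 𝓝 t₀, (p t).natDegree ≤ n)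
    (hx : ContDiffAt ℂ 1 x t₀) : ContDiffAt ℂ 1 (fun t => (p t).eval (x t)) t₀ :=
  (ContDiffAt.sum (s := Finset.range (n + 1)) fun k _ =>
    (h k).mul (hx.pow k)).congr_of_eventuallyEq (d.mono fun _ q =>
      eval_eq_sum_range' (Nat.lt_succ_of_le q) _)

end Sm

/-- the cubic with given roots -/
def cub (x : Fin 3 → ℂ) : ℂ[X] := ∏ p, (X - C (x p))

lemma cub_deg (x : Fin 3 → ℂ) : (cub x).natDegree = 3 := by
  rw [cub, natDegree_prod_of_monic _ _ fun _ _ => monic_X_sub_C _]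
  simp

lemma ofFn_le {n : ℕ} (v : Fin (n + 1) → ℂ) : (ofFn (n + 1) v).natDegree ≤ n :=
  Nat.le_of_lt_succ (ofFn_natDegree_lt (by omega) v)

lemma zero_of_coeff {f U a a' b b' u : ℂ[X]} {m : ℕ} (h1 : f.natDegree = 8)
    (h2 : U.natDegree ≤ 2 * m + 5) (d1 : a.natDegree ≤ m + 4) (d2 : a'.natDegree ≤ m + 4)
    (d3 : b.natDegree ≤ m) (d4 : b'.natDegree ≤ m) (d5 : u.natDegree ≤ 3)
    (h : ∀ k : Fin (2 * m + 9), (a * a' - f * (b * b') - U * u).coeff k = 0) :
    a * a' - f * (b * b') - U * u = 0 := by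
  have n1 := natDegree_sub_le (a * a' - f * (b * b')) (U * u)
  have n2 := natDegree_sub_le (a * a') (f * (b * b'))
  have n3 := natDegree_mul_le (p := a) (q := a')
  have n4 := natDegree_mul_le (p := f) (q := b * b')
  have n5 := natDegree_mul_le (p := b) (q := b')
  have n6 := natDegree_mul_le (p := U) (q := u)
  ext k
  by_cases q : k < 2 * m + 9
  · exact h ⟨k, q⟩
  · exact coeff_eq_zero_of_natDegree_lt (by omega)

/-- the derivative of the cubic -/
def dcub (x δ : Fin 3 → ℂ) : ℂ[X] := -(C (δ 0 / 2) * (X - C (x 1)) * (X - C (x 2)) +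
  C (δ 1 / 2) * (X - C (x 0)) * (X - C (x 2)) + C (δ 2 / 2) * (X - C (x 0)) * (X - C (x 1)))

lemma line {f U A B α β : ℂ[X]} {x δ : Fin 3 → ℂ} (e : A ^ 2 - f * B ^ 2 = U * cub x) (k : ℕ) :
    HasDerivAt (fun s : ℂ => ((A + s • α) ^ 2 - f * (B + s • β) ^ 2 -
      U * cub (x + s • δ)).coeff k) (2 * (A * α - f * (B * β) - U * dcub x δ).coeff k) 0 := by
  have ex : ∀ s : ℂ, (A + s • α) ^ 2 - f * (B + s • β) ^ 2 - U * cub (x + s • δ) =
      C (2 * s) * (A * α - f * (B * β) - U * dcub x δ) +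
      C (s ^ 2) * (α ^ 2 - f * β ^ 2 - U * (C (δ 0 * δ 1) * (X - C (x 2)) +
        C (δ 0 * δ 2) * (X - C (x 1)) + C (δ 1 * δ 2) * (X - C (x 0)))) +
      C (s ^ 3) * (U * C (δ 0 * δ 1 * δ 2)) := fun s => by
    have h2 : ∀ z : ℂ, C z = 2 * C (z / 2) := fun z => by
      rw [← C_ofNat, ← C_mul]
      exact congrArg C (by ring)
    simp only [map_add, smul_eq_C_mul, cub, Fin.prod_univ_three, Pi.add_apply, Pi.smul_apply,
      smul_eq_mul, map_mul, map_pow, dcub, C_ofNat] at e ⊢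
    rw [h2 (δ 0), h2 (δ 1), h2 (δ 2)]
    linear_combination e
  simp only [ex, coeff_add, coeff_C_mul]
  simpa using ((((hasDerivAt_id (0 : ℂ)).const_mul 2).mul_const _).fun_add
    ((hasDerivAt_pow 2 0).mul_const _)).fun_add ((hasDerivAt_pow 3 0).mul_const _)

/-- the space of unknowns -/
abbrev EE (m : ℕ) : Type := (Fin (m + 5) → ℂ) × (Fin (m + 1) → ℂ) × (Fin 3 → ℂ)

theorem defo [CompleteSpace T] {f U : T → ℂ[X]} {m : ℕ} {A₀ B₀ : ℂ[X]} {x₀ : Fin 3 → ℂ}
    (hf : Sm f t₀) (hU : Sm U t₀) (df : ∀ t, (f t).natDegree = 8)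
    (dU : ∀ t, (U t).natDegree ≤ 2 * m + 5)
    (e : A₀ ^ 2 - f t₀ * B₀ ^ 2 = U t₀ * cub x₀) (c : IsCoprime (U t₀ * cub x₀) A₀)
    (U0 : U t₀ ≠ 0) (dA : A₀.natDegree ≤ m + 4) (dB : B₀.natDegree ≤ m)
    (top : A₀.coeff (m + 4) ≠ 0 ∨ B₀.coeff m ≠ 0) (inj : Function.Injective x₀) :
    ∃ (A B : T → ℂ[X]) (x : T → Fin 3 → ℂ), Sm A t₀ ∧ Sm B t₀ ∧ ContDiffAt ℂ 1 x t₀ ∧
      A t₀ = A₀ ∧ B t₀ = B₀ ∧ x t₀ = x₀ ∧ (∀ t, (A t).natDegree ≤ m + 4 ∧ (B t).natDegree ≤ m) ∧
      ∀ᶠ t in 𝓝 t₀, A t ^ 2 - f t * B t ^ 2 = U t * cub (x t) := by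
  let G : T × EE m → ℂ[X] := fun z =>
    ofFn (m + 5) z.2.1 ^ 2 - f z.1 * ofFn (m + 1) z.2.2.1 ^ 2 - U z.1 * cub z.2.2.2
  let Φ : T × EE m → Fin (2 * m + 9) → ℂ := fun z k => (G z).coeff k
  let v₀ : EE m := (toFn _ A₀, toFn _ B₀, x₀)
  have a0 : ofFn (m + 5) v₀.1 = A₀ := ofFn_comp_toFn_eq_id_of_natDegree_lt (by omega)
  have b0 : ofFn (m + 1) v₀.2.1 = B₀ := ofFn_comp_toFn_eq_id_of_natDegree_lt (by omega)
  have sG : Sm G (t₀, v₀) := (((Sm.ofFn contDiffAt_snd.fst).pow 2).sub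
    ((Sm.comp (g := Prod.fst) hf contDiffAt_fst).mul ((Sm.ofFn contDiffAt_snd.snd.fst).pow 2))).sub
    ((Sm.comp (g := Prod.fst) hU contDiffAt_fst).mul (Sm.prod _ fun p _ =>
      Sm.lin (contDiffAt_pi.1 contDiffAt_snd.snd.snd p)))
  have sΦ : ContDiffAt ℂ 1 Φ (t₀, v₀) := contDiffAt_pi.2 fun k => sG k
  have inj' : Function.Injective (fderiv ℂ Φ (t₀, v₀) ∘L .inr ℂ T (EE m)) := by
    refine (injective_iff_map_eq_zero _).2 fun v hv => ?_
    have dυ : (dcub x₀ v.2.2).natDegree ≤ 2 := by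
      unfold dcub
      compute_degree
    have l : HasDerivAt (fun s : ℂ => ((t₀, v₀ + s • v) : T × EE m)) (0, v) 0 :=
      (hasDerivAt_const _ _).prodMk (by
        simpa using ((hasDerivAt_id (0 : ℂ)).smul_const v).const_add v₀)
    have l2 := (sΦ.differentiableAt one_ne_zero).hasFDerivAt.comp_hasDerivAt_of_eq 0 l (by simp)
    have hv' : fderiv ℂ Φ (t₀, v₀) (0, v) = 0 := hv
    rw [hv'] at l2
    have z := zero_of_coeff (df t₀) (dU t₀) dA (ofFn_le v.1) dB (ofFn_le v.2.1)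
      (u := dcub x₀ v.2.2) (by omega) fun k => by
      have l3 := hasDerivAt_pi.1 l2 k
      simp only [Function.comp_apply, Φ, G, Prod.fst_add, Prod.snd_add, Prod.smul_fst,
        Prod.smul_snd, map_add, map_smul, a0, b0] at l3
      exact (mul_eq_zero.1 ((line e k).unique l3)).resolve_left two_ne_zero
    obtain ⟨z1, z2, z3⟩ := ker (υ := 2 * dcub x₀ v.2.2) (df t₀) e c U0 (cub_deg _)
      dA dB top (ofFn_le v.1) (ofFn_le v.2.1)
      (natDegree_mul_le.trans (by simpa using dυ)) (by linear_combination 2 * z)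
    have z4 := (mul_eq_zero.1 z3).resolve_left two_ne_zero
    have n : ∀ i j, i ≠ j → x₀ i - x₀ j ≠ 0 := fun i j q => sub_ne_zero.2 (inj.ne q)
    refine Prod.ext (injective_ofFn _ (z1.trans (map_zero _).symm))
      (Prod.ext (injective_ofFn _ (z2.trans (map_zero _).symm)) (funext fun p => ?_))
    have := congrArg (eval (x₀ p)) z4
    fin_cases p <;> simpa [dcub, n] using this
  have inv : (fderiv ℂ Φ (t₀, v₀) ∘L .inr ℂ T (EE m)).IsInvertible :=
    ⟨(LinearMap.linearEquivOfInjective (fderiv ℂ Φ (t₀, v₀) ∘L .inr ℂ T (EE m)).toLinearMap inj'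
      (by simp; omega)).toContinuousLinearEquiv, rfl⟩
  have p0 := sΦ.implicitFunction_apply_self one_ne_zero inv
  have p1 := sΦ.contDiffAt_implicitFunction one_ne_zero inv
  have p2 := sΦ.eventually_apply_implicitFunction one_ne_zero inv
  generalize sΦ.implicitFunction one_ne_zero inv = ψ at p0 p1 p2
  refine ⟨fun t => ofFn _ (ψ t).1, fun t => ofFn _ (ψ t).2.1, fun t => (ψ t).2.2, Sm.ofFn p1.fst,
    Sm.ofFn p1.snd.fst, p1.snd.snd, (congrArg (fun v : EE m => ofFn _ v.1) p0).trans a0,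
    (congrArg (fun v : EE m => ofFn _ v.2.1) p0).trans b0, congrArg (fun v : EE m => v.2.2) p0,
    fun t => ⟨ofFn_le _, ofFn_le _⟩, p2.mono fun t h1 => ?_⟩
  rw [← sub_eq_zero, sq, sq]
  refine zero_of_coeff (df t) (dU t) (ofFn_le _) (ofFn_le _) (ofFn_le _) (ofFn_le _)
    (cub_deg _).le fun k => ?_
  have := congrFun h1 k
  simp only [Φ, G, a0, b0, e] at this
  simpa [v₀, sq] using this

end

end Pool.Agent.MP_8d06cc_nt.ISO
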