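import Pool.Agent.MP_8d06cc_nt.ISO.Pkg

/-! The derivative of the difference of the moving zeros is slow along the kernel. -/

namespace Pool.Agent.MP_8d06cc_nt.ISO

open Filter Topology Polynomial Asymptotics
open AB

noncomputable section

variable {T : Type} [NormedAddCommGroup T] [NormedSpace ℂ T] {τ₀ : T}

/-- points near the base point with arbitrary directions -/
abbrev LL (τ₀ : T) : Filter (T × T) := 𝓝 τ₀ ×ˢ 𝓟 Set.univ

lemma ddO {g : T → ℂ} (h : ContDiffAt ℂ 1 g τ₀) :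
    (fun z : T × T => dd g z.1 z.2) =O[LL τ₀] fun z => ‖z.2‖ := by
  refine IsBigO.of_bound (‖fderiv ℂ g τ₀‖ + 1) (eventually_prod_principal_iff.2 ?_)
  filter_upwards [(h.continuousAt_fderiv one_ne_zero).norm.eventually_lt_const (lt_add_one _)]
    with t q ξ _
  rw [norm_norm]
  exact ((fderiv ℂ g t).le_opNorm ξ).trans (mul_le_mul_of_nonneg_right q.le (norm_nonneg _))

lemma lipO {H : T × ℂ → ℂ} {r : ℂ} {u u' : T → ℂ} (h : ContDiffAt ℂ 1 H (τ₀, r))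
    (hu : ContinuousAt u τ₀) (hu' : ContinuousAt u' τ₀) (u0 : u τ₀ = r) (u0' : u' τ₀ = r) :
    (fun t => H (t, u' t) - H (t, u t)) =O[𝓝 τ₀] fun t => u' t - u t := by
  have l : Tendsto (fun t => ((t, u' t), (t, u t))) (𝓝 τ₀) (𝓝 ((τ₀, r), (τ₀, r))) :=
    (tendsto_id.prodMk_nhds (u0' ▸ hu'.tendsto)).prodMk_nhds
      (tendsto_id.prodMk_nhds (u0 ▸ hu.tendsto))
  refine ((h.hasStrictFDerivAt one_ne_zero).isBigO_sub.comp_tendsto l).trans
    (IsBigO.of_bound 1 (.of_forall fun t => ?_))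
  simp

omit [NormedSpace ℂ T] in
lemma oneO {g : T → ℂ} (h : ContinuousAt g τ₀) : g =O[𝓝 τ₀] fun _ => (1 : ℝ) :=
  h.tendsto.isBigO_one ℝ

lemma lam_bound {f0 f : ℂ[X]} {Z : Finset ℂ} (rn : RN f0 Z) (s : Fin rn.n) (hf : Cl f0 rn.ε f)
    {u u' y y' : ℂ} (h : ∀ z ∈ rn.Γ s, rn.δ ≤ ‖z - u‖) (h' : ∀ z ∈ rn.Γ s, rn.δ ≤ ‖z - u'‖) :
    ‖rn.Λ f s (fun z => y' / (z - u')) - rn.Λ f s (fun z => y / (z - u))‖ ≤
      rn.K * (‖y' - y‖ / rn.δ + ‖y‖ * ‖u' - u‖ / (rn.δ * rn.δ)) := by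
  have d0 := rn.δ0
  have n : ∀ z ∈ rn.Γ s, z - u ≠ 0 := fun z hz => norm_pos_iff.1 (d0.trans_le (h z hz))
  have n' : ∀ z ∈ rn.Γ s, z - u' ≠ 0 := fun z hz => norm_pos_iff.1 (d0.trans_le (h' z hz))
  have c : ContinuousOn (fun z => y / (z - u)) (rn.Γ s) :=
    continuousOn_const.div (continuousOn_id.sub continuousOn_const) n
  have c' : ContinuousOn (fun z => y' / (z - u')) (rn.Γ s) :=
    continuousOn_const.div (continuousOn_id.sub continuousOn_const) n'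
  have e := (rn.proj f s hf).add _ (fun z => y' / (z - u') - y / (z - u)) c (c'.sub c)
  simp only [add_sub_cancel] at e
  rw [e, add_sub_cancel_left]
  refine rn.bdd f s _ _ hf (c'.sub c) (by positivity) fun z hz => ?_
  have : y' / (z - u') - y / (z - u) =
      (y' - y) / (z - u') + y * (u' - u) / ((z - u') * (z - u)) := by
    have := n z hz
    have := n' z hz
    field_simp
    ring
  rw [this]
  refine (norm_add_le _ _).trans (add_le_add ?_ ?_)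
  · rw [norm_div]
    exact div_le_div_of_nonneg_left (norm_nonneg _) d0 (h' z hz)
  · rw [norm_div, norm_mul, norm_mul]
    exact div_le_div_of_nonneg_left (by positivity) (by positivity)
      (mul_le_mul (h' z hz) (h z hz) d0.le (norm_nonneg _))

omit [NormedSpace ℂ T] in
lemma ev_far {f0 : ℂ[X]} {Z : Finset ℂ} (rn : RN f0 Z) (s : Fin rn.n) {u : T → ℂ}
    (hu : ContinuousAt u τ₀) (h : u τ₀ ∈ Z) :
    ∀ᶠ t in 𝓝 τ₀, ‖u t - u τ₀‖ < rn.δ ∧ ∀ z ∈ rn.Γ s, rn.δ ≤ ‖z - u t‖ := by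
  filter_upwards [hu.eventually (Metric.ball_mem_nhds _ rn.δ0)] with t q
  have q' : ‖u t - u τ₀‖ < rn.δ := mem_ball_iff_norm.1 q
  refine ⟨q', fun z hz => ?_⟩
  have h1 := rn.farZ s _ h z hz
  have h2 := norm_add_le (z - u t) (u t - u τ₀)
  rw [sub_add_sub_cancel] at h2
  linarith

lemma Base.re (G : Base τ₀) (p : J8) : (fz (G.e τ₀)).eval (G.r p) = G.lam ^ 2 := by
  have := congrArg (eval (G.r p)) G.fr
  rw [eval_prod, Finset.prod_eq_zero (Finset.mem_univ p) (by simp), eval_sub, eval_C] at this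
  exact sub_eq_zero.1 this

lemma Base.ne (G : Base τ₀) (i : Fin 8) (p : J8) : G.e τ₀ i - G.r p ≠ 0 := fun h => by
  have := G.re p
  rw [← sub_eq_zero.1 h, fz, eval_prod, Finset.prod_eq_zero (Finset.mem_univ i) (by simp)] at this
  exact pow_ne_zero 2 G.l0 this.symm

/-- the error term of one moving point -/
def Er (G : Base τ₀) (Λ : T → (ℂ → ℂ) → Fin 3 → ℂ) (u u' : T → ℂ) (j : Fin 3) (z : T × T) : ℂ :=
  Bt (Λ z.1) (G.e z.1) (fun i => dd (G.e · i) z.1 z.2) (u' z.1) (G.S (z.1, u' z.1))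
    (dd u' z.1 z.2) j - Bt (Λ z.1) (G.e z.1) (fun i => dd (G.e · i) z.1 z.2) (u z.1)
    (G.S (z.1, u z.1)) (dd u z.1 z.2) j -
    (dd u' z.1 z.2 - dd u z.1 z.2) / G.S (z.1, u z.1) * u z.1 ^ (j : ℕ)

lemma ErO (G : Base τ₀) {f0 : ℂ[X]} {Z : Finset ℂ} (rn : RN f0 Z) (s : Fin rn.n)
    (hc : ∀ᶠ t in 𝓝 τ₀, Cl f0 rn.ε (fz (G.e t))) {p : J8} (hZ : G.r p ∈ Z) {u u' : T → ℂ}
    (hu : ContDiffAt ℂ 1 u τ₀) (hu' : ContDiffAt ℂ 1 u' τ₀) (u0 : u τ₀ = G.r p)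
    (u0' : u' τ₀ = G.r p) (j : Fin 3) : Er G (fun t => rn.Λ (fz (G.e t)) s) u u' j =O[LL τ₀]
      fun z => ‖u' z.1 - u z.1‖ * ‖z.2‖ := by
  have S0 : G.S (τ₀, G.r p) ≠ 0 := (G.S0 p).trans_ne G.l0
  have lip : ∀ {H : T × ℂ → ℂ}, ContDiffAt ℂ 1 H (τ₀, G.r p) →
      (fun t => H (t, u' t) - H (t, u t)) =O[𝓝 τ₀] fun t => ‖u' t - u t‖ := fun h =>
    (lipO h hu.continuousAt hu'.continuousAt u0 u0').norm_right
  have cy : ContinuousAt (fun t => G.S (t, u t)) τ₀ :=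
    ContinuousAt.comp (g := G.S) (u0 ▸ (G.hS p).continuousAt)
      (continuousAt_id.prodMk hu.continuousAt)
  let D : T → Fin 3 → ℂ := fun t => rn.Λ (fz (G.e t)) s (fun z => G.S (t, u' t) / (z - u' t)) -
    rn.Λ (fz (G.e t)) s fun z => G.S (t, u t) / (z - u t)
  have hD : D =O[𝓝 τ₀] fun t => ‖u' t - u t‖ := by
    have a1 : D =O[𝓝 τ₀] fun t => ‖G.S (t, u' t) - G.S (t, u t)‖ / rn.δ +
        ‖G.S (t, u t)‖ * ‖u' t - u t‖ / (rn.δ * rn.δ) := by
      refine IsBigO.of_bound rn.K ?_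
      filter_upwards [hc, ev_far rn s hu.continuousAt (u0 ▸ hZ),
        ev_far rn s hu'.continuousAt (u0' ▸ hZ)] with t q1 q2 q3
      exact (lam_bound rn s q1 q2.2 q3.2).trans
        (mul_le_mul_of_nonneg_left (le_abs_self _) rn.K0.le)
    refine a1.trans (IsBigO.add ?_ ?_)
    · simpa only [div_eq_inv_mul] using (lip (G.hS p)).norm_left.const_mul_left _
    · simpa only [div_eq_inv_mul, one_mul] using
        ((oneO cy).norm_left.mul (isBigO_refl (fun t => ‖u' t - u t‖) _)).const_mul_left _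
  have fs : Tendsto Prod.fst (LL τ₀) (𝓝 τ₀) := tendsto_fst
  have ce : ∀ i, ContinuousAt (fun t => G.e t i) τ₀ := fun i => (G.he i).continuousAt
  have e : Er G (fun t => rn.Λ (fz (G.e t)) s) u u' j = fun z =>
      (u' z.1 ^ (j : ℕ) / G.S (z.1, u' z.1) - u z.1 ^ (j : ℕ) / G.S (z.1, u z.1)) *
        dd u' z.1 z.2 + ∑ i, (G.S (z.1, u' z.1) / (G.e z.1 i - u' z.1) -
          G.S (z.1, u z.1) / (G.e z.1 i - u z.1) - ∑ l : Fin 3, D z.1 l * G.e z.1 i ^ (l : ℕ)) *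
          (G.e z.1 i ^ (j : ℕ) / ∏ i' ∈ Finset.univ.erase i, (G.e z.1 i - G.e z.1 i')) *
          dd (G.e · i) z.1 z.2 := funext fun z => by
    simp only [Er, Bt, Sg, qv, D, Pi.sub_apply]
    rw [add_sub_add_comm, ← Finset.sum_sub_distrib, add_sub_right_comm]
    refine congrArg₂ _ (by ring) (Finset.sum_congr rfl fun i _ => ?_)
    simp only [Fin.sum_univ_three]
    ring
  rw [e]
  refine IsBigO.add ?_ (IsBigO.fun_sum fun i _ => ?_)
  · exact ((lip (H := fun z => z.2 ^ (j : ℕ) / G.S z)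
      ((contDiffAt_snd.pow _).div (G.hS p) S0)).comp_tendsto fs).mul (ddO hu')
  · have a1 := lip (H := fun z => G.S z / (G.e z.1 i - z.2)) ((G.hS p).div
      ((ContDiffAt.comp (g := (G.e · i)) (τ₀, G.r p) (G.he i) contDiffAt_fst).sub contDiffAt_snd)
      (G.ne i p))
    have a2 : (fun t => ∑ l : Fin 3, D t l * G.e t i ^ (l : ℕ)) =O[𝓝 τ₀]
        fun t => ‖u' t - u t‖ := IsBigO.fun_sum fun l _ => by
      simpa only [mul_one, Pi.pow_apply] using (isBigO_pi.1 hD l).mul (oneO ((ce i).pow l))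
    have a3 := oneO (((ce i).pow j).div₀ (g := fun t => ∏ i' ∈ Finset.univ.erase i,
      (G.e t i - G.e t i')) (tendsto_finsetProd _ fun i' _ => (ce i).sub (ce i'))
      (Finset.prod_ne_zero_iff.2 fun i' h =>
        sub_ne_zero.2 (G.ie.ne (Finset.ne_of_mem_erase h).symm)))
    simpa only [mul_one, Pi.pow_apply, Function.comp_def] using
      (((a1.sub a2).mul a3).comp_tendsto fs).mul (ddO (G.he i))

lemma lagr (z u : Fin 3 → ℂ) (p : Fin 3) : z p * ((u p - u (p + 1)) * (u p - u (p + 2))) =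
    ∑ q, z q * u q ^ ((2 : Fin 3) : ℕ) -
      (u (p + 1) + u (p + 2)) * ∑ q, z q * u q ^ ((1 : Fin 3) : ℕ) +
      u (p + 1) * u (p + 2) * ∑ q, z q * u q ^ ((0 : Fin 3) : ℕ) := by
  fin_cases p <;> simp [Fin.sum_univ_three] <;> ring

theorem est (G : Base τ₀) {f0 : ℂ[X]} {Z : Finset ℂ} (rn : RN f0 Z) (s : Fin rn.n)
    (hc : ∀ᶠ t in 𝓝 τ₀, Cl f0 rn.ε (fz (G.e t))) (hZ : ∀ p, G.r p ∈ Z) {x x' : T → J8 → ℂ}
    (sx : ∀ p, ContDiffAt ℂ 1 (fun t => x t p) τ₀) (sx' : ∀ p, ContDiffAt ℂ 1 (fun t => x' t p) τ₀)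
    (x0 : x τ₀ = G.r) (x0' : x' τ₀ = G.r) (xl : ∀ t q, x t (.inl q) = x' t (.inl q)) (p : Fin 3) :
    ∃ K : ℝ, ∀ᶠ t in 𝓝 τ₀, ∀ ξ, (∀ j, ∑ p, Bt (rn.Λ (fz (G.e t)) s) (G.e t)
      (fun i => dd (G.e · i) t ξ) (x t p) (G.S (t, x t p)) (dd (x · p) t ξ) j = 0) →
      (∀ j, ∑ p, Bt (rn.Λ (fz (G.e t)) s) (G.e t)
        (fun i => dd (G.e · i) t ξ) (x' t p) (G.S (t, x' t p)) (dd (x' · p) t ξ) j = 0) →
      ‖dd (x' · (.inr p)) t ξ - dd (x · (.inr p)) t ξ‖ ≤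
        K * (‖fun q => x' t (.inr q) - x t (.inr q)‖ * ‖ξ‖) := by
  let E : Fin 3 → T × T → ℂ := fun j z => ∑ q : Fin 3,
    Er G (fun t => rn.Λ (fz (G.e t)) s) (x · (.inr q)) (x' · (.inr q)) j z
  have hE : ∀ j, E j =O[LL τ₀] fun z => ‖fun q => x' z.1 (.inr q) - x z.1 (.inr q)‖ * ‖z.2‖ :=
    fun j => IsBigO.fun_sum fun q _ => (ErO G rn s hc (hZ (.inr q)) (sx _) (sx' _) (by rw [x0])
      (by rw [x0']) j).trans (IsBigO.of_bound 1 (.of_forall fun z => by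
        rw [one_mul, norm_mul, norm_mul, norm_norm, norm_norm, norm_norm]
        exact mul_le_mul_of_nonneg_right
          (norm_le_pi_norm (fun q => x' z.1 (.inr q) - x z.1 (.inr q)) q) (norm_nonneg _)))
  have cx : ∀ q, ContinuousAt (fun t => x t (.inr q)) τ₀ := fun q => (sx _).continuousAt
  have cy : ∀ q, ContinuousAt (fun t => G.S (t, x t (.inr q))) τ₀ := fun q =>
    ContinuousAt.comp (g := G.S) (by rw [x0]; exact (G.hS _).continuousAt)
      (continuousAt_id.prodMk (cx q))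
  have cp : ContinuousAt (fun t => (x t (.inr p) - x t (.inr (p + 1))) *
      (x t (.inr p) - x t (.inr (p + 2)))) τ₀ := ((cx _).sub (cx _)).mul ((cx _).sub (cx _))
  have n0 : (x τ₀ (.inr p) - x τ₀ (.inr (p + 1))) * (x τ₀ (.inr p) - x τ₀ (.inr (p + 2))) ≠ 0 := by
    rw [x0]
    refine mul_ne_zero (sub_ne_zero.2 (G.ir.ne ?_)) (sub_ne_zero.2 (G.ir.ne ?_)) <;>
      fin_cases p <;> decide
  have fs : Tendsto Prod.fst (LL τ₀) (𝓝 τ₀) := tendsto_fst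
  have a1 := ((oneO ((cx (p + 1)).add (cx (p + 2)))).comp_tendsto fs).mul (hE 1)
  have a2 := ((oneO ((cx (p + 1)).mul (cx (p + 2)))).comp_tendsto fs).mul (hE 0)
  have a3 := (oneO ((cy p).div₀ cp n0)).comp_tendsto fs
  simp only [Function.comp_def, one_mul] at a1 a2 a3
  obtain ⟨K, hK⟩ := ((((hE 2).sub a1).add a2).mul a3).bound
  refine ⟨K, ?_⟩
  filter_upwards [eventually_prod_principal_iff.1 hK, ev_ne cp n0,
    ev_ne (cy p) (by rw [x0, G.S0]; exact G.l0)] with t q1 q2 q3 ξ k1 k2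
  have q := q1 ξ trivial
  have r : ∀ j, E j (t, ξ) = -∑ q : Fin 3, (dd (x' · (.inr q)) t ξ - dd (x · (.inr q)) t ξ) /
      G.S (t, x t (.inr q)) * x t (.inr q) ^ (j : ℕ) := fun j => by
    have l1 := k1 j
    have l2 := k2 j
    simp only [Fintype.sum_sum_type, xl] at l1 l2
    simp only [E, Er, Finset.sum_sub_distrib]
    linear_combination l2 - l1
  have l := lagr (fun q => (dd (x' · (.inr q)) t ξ - dd (x · (.inr q)) t ξ) /
    G.S (t, x t (.inr q))) (fun q => x t (.inr q)) p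
  simp only [mul_one, norm_mul, norm_norm, r, Pi.add_apply, Pi.mul_apply] at q
  refine le_of_eq_of_le ?_ q
  rw [← norm_mul, ← norm_neg]
  refine congrArg _ ?_
  rw [mul_div_assoc', eq_div_iff q2]
  field_simp at l ⊢
  linear_combination -l

end

end Pool.Agent.MP_8d06cc_nt.ISO
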