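import Pool.Agent.MP_8d06cc_nt.AB.Spec

/-! The Betti relation for differentiable families of functions on the curve. -/

namespace Pool.Agent.MP_8d06cc_nt.ISO

open Filter Topology Polynomial TrivSqZeroExt
open AB

noncomputable section

variable {T : Type} [NormedAddCommGroup T] [NormedSpace ℂ T]

/-- functions that are differentiable at a point -/
def DF (τ : T) : Subring (T → ℂ) where
  carrier := {g | DifferentiableAt ℂ g τ}
  mul_mem' a b := DifferentiableAt.mul a b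
  one_mem' := differentiableAt_const _
  add_mem' a b := DifferentiableAt.add a b
  zero_mem' := differentiableAt_const _
  neg_mem' a := DifferentiableAt.neg a

/-- the value at a point -/
def evt (τ t : T) : DF τ →+* ℂ := (Pi.evalRingHom (fun _ => ℂ) t).comp (DF τ).subtype

/-- the value and the derivative in one direction -/
def jet (τ ξ : T) : DF τ →+* DualNumber ℂ where
  toFun g := (g.1 τ, fderiv ℂ g.1 τ ξ)
  map_one' := TrivSqZeroExt.ext rfl (by simp)
  map_zero' := TrivSqZeroExt.ext rfl (by simp)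
  map_add' a b := TrivSqZeroExt.ext rfl (by simp [fderiv_add a.2 b.2])
  map_mul' a b := TrivSqZeroExt.ext rfl (by simp [fderiv_mul a.2 b.2, mul_comm])

/-- the jet of the dual numbers -/
def JD : Jet (DualNumber ℂ) where
  ev := fstHom ℂ ℂ ℂ
  dt := snd
  add := snd_add
  mul a b := by simp [mul_comm]

variable {τ ξ : T}

lemma ev_jet : JD.ev.comp (jet τ ξ) = evt τ τ := rfl

lemma jet_congr {g g' : DF τ} (h : ∀ᶠ t in 𝓝 τ, evt τ t g = evt τ t g') :
    jet τ ξ g = jet τ ξ g' :=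
  TrivSqZeroExt.ext h.self_of_nhds (congrArg (· ξ) (EventuallyEq.fderiv_eq (𝕜 := ℂ) h))

lemma jetP_congr {P Q : (DF τ)[X]} (h : ∀ᶠ t in 𝓝 τ, P.map (evt τ t) = Q.map (evt τ t)) :
    P.map (jet τ ξ) = Q.map (jet τ ξ) := Polynomial.ext fun k => by
  rw [coeff_map, coeff_map]
  exact jet_congr (h.mono fun t q => by rw [← coeff_map, ← coeff_map, q])

lemma jet_unit {g : DF τ} (h : g.1 τ ≠ 0) : IsUnit (jet τ ξ g) :=
  isUnit_iff_isUnit_fst.2 (Ne.isUnit h)

lemma lift {p : T → ℂ[X]} {n : ℕ} (h : ∀ k, DifferentiableAt ℂ (fun t => (p t).coeff k) τ)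
    (d : ∀ t, (p t).natDegree ≤ n) :
    ∃ P : (DF τ)[X], P.natDegree ≤ n ∧ ∀ t, P.map (evt τ t) = p t := by
  refine ⟨∑ k ∈ Finset.range (n + 1), monomial k ⟨_, h k⟩,
    natDegree_sum_le_of_forall_le _ _ fun k hk =>
      (natDegree_monomial_le _).trans (Finset.mem_range_succ_iff.1 hk), fun t => ?_⟩
  refine Eq.trans ?_ (as_sum_range' (p t) (n + 1) (Nat.lt_succ_of_le (d t))).symm
  rw [Polynomial.map_sum]
  exact Finset.sum_congr rfl fun k _ => map_monomial _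

lemma coprime_lift {A B : (DualNumber ℂ)[X]} (h : IsCoprime (A.map JD.ev) (B.map JD.ev)) :
    IsCoprime A B := by
  obtain ⟨a, b, h⟩ := h
  have e : ∀ p : ℂ[X], (p.map (inlHom ℂ ℂ)).map JD.ev = p := fun p => by
    ext k
    rw [coeff_map, coeff_map]
    rfl
  have n : IsNilpotent (a.map (inlHom ℂ ℂ) * A + b.map (inlHom ℂ ℂ) * B - 1) :=
    Polynomial.isNilpotent_iff.2 fun k => isNilpotent_iff_isNilpotent_fst.2 (by
      have : JD.ev ((a.map (inlHom ℂ ℂ) * A + b.map (inlHom ℂ ℂ) * B - 1).coeff k) = 0 := by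
        rw [← coeff_map, Polynomial.map_sub, Polynomial.map_add, Polynomial.map_mul,
          Polynomial.map_mul, e, e, h, Polynomial.map_one, sub_self, coeff_zero]
      exact ⟨1, (pow_one _).trans this⟩)
  obtain ⟨v, hv⟩ := n.isUnit_one_add.exists_left_inv
  exact ⟨v * a.map (inlHom ℂ ℂ), v * b.map (inlHom ℂ ℂ), by linear_combination hv⟩

lemma fz_map {R S : Type} [CommRing R] [CommRing S] (φ : R →+* S) (e : Fin 8 → R) :
    (fz e).map φ = fz fun i => φ (e i) := by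
  simp [fz, Polynomial.map_prod]

lemma eval_ev {R S : Type} [CommRing R] [CommRing S] (φ : R →+* S) (P : R[X]) (x : R) :
    (P.map φ).eval (φ x) = φ (P.eval x) := by
  rw [eval_map, eval₂_hom]

theorem brel_fam (hB : StmtBREL) {ι : Type} [Fintype ι] {e : T → Fin 8 → ℂ} {x y : T → ι → ℂ}
    {A B : T → ℂ[X]} {c : ℂ} {n : ι → ℕ} {m : ℕ} {Γ : Set ℂ} {Λ : (ℂ → ℂ) → Fin 3 → ℂ}
    (de : ∀ i, DifferentiableAt ℂ (fun t => e t i) τ)
    (dx : ∀ p, DifferentiableAt ℂ (fun t => x t p) τ)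
    (dy : ∀ p, DifferentiableAt ℂ (fun t => y t p) τ)
    (dA : ∀ k, DifferentiableAt ℂ (fun t => (A t).coeff k) τ)
    (dB : ∀ k, DifferentiableAt ℂ (fun t => (B t).coeff k) τ)
    (deg : ∀ t, (A t).natDegree ≤ m + 4 ∧ (B t).natDegree ≤ m) (ie : Function.Injective (e τ))
    (ix : Function.Injective (x τ)) (y0 : ∀ p, y τ p ≠ 0) (co : IsCoprime (A τ) (B τ))
    (c0 : c ≠ 0) (h1 : ∀ᶠ t in 𝓝 τ, ∀ p, y t p ^ 2 = (fz (e t)).eval (x t p))
    (h2 : ∀ᶠ t in 𝓝 τ, A t ^ 2 - fz (e t) * B t ^ 2 = C c * ∏ p, (X - C (x t p)) ^ n p)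
    (h3 : ∀ᶠ t in 𝓝 τ, ∀ p, n p ≠ 0 → (A t).eval (x t p) + (B t).eval (x t p) * y t p = 0)
    (top : ∑ p, n p = 2 * (m + 4) ∨ ((B τ).coeff m ≠ 0 ∧ ∃ σ : ℤ, (σ = 1 ∨ σ = -1) ∧
      ∀ᶠ t in 𝓝 τ, (A t).coeff (m + 4) = σ * (B t).coeff m))
    (pr : Proj (fz (e τ)) Γ Λ) (hΓ : ∀ p, x τ p ∉ Γ) (ξ : T)
    (hI : ∀ j, BtI Λ (e τ) (fun i => fderiv ℂ (fun t => e t i) τ ξ) j = 0) (j : Fin 3) :
    ∑ p, (n p : ℂ) * Bt Λ (e τ) (fun i => fderiv ℂ (fun t => e t i) τ ξ) (x τ p) (y τ p)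
      (fderiv ℂ (fun t => x t p) τ ξ) j = 0 := by
  obtain ⟨A', a1, a2⟩ := lift dA fun t => (deg t).1
  obtain ⟨B', b1, b2⟩ := lift dB fun t => (deg t).2
  let e' : Fin 8 → DF τ := fun i => ⟨_, de i⟩
  let x' : ι → DF τ := fun p => ⟨_, dx p⟩
  let y' : ι → DF τ := fun p => ⟨_, dy p⟩
  let c' : DF τ := ⟨fun _ => c, differentiableAt_const c⟩
  have fe : ∀ t, (fz e').map (evt τ t) = fz (e t) := fun t => fz_map _ _
  have pts : Pts (fun i => jet τ ξ (e' i)) (fun p => jet τ ξ (x' p)) fun p => jet τ ξ (y' p) := by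
    refine ⟨fun i j h => ?_, fun p q h => ?_, fun p => jet_unit (y0 p), fun p => ?_⟩
    · exact map_sub (jet τ ξ) _ _ ▸ jet_unit (sub_ne_zero.2 (ie.ne h))
    · exact map_sub (jet τ ξ) _ _ ▸ jet_unit (sub_ne_zero.2 (ix.ne h))
    · rw [← fz_map, eval_ev, ← map_pow]
      exact jet_congr (h1.mono fun t q => by rw [← eval_ev, fe, map_pow]; exact q p)
  have cert : ∃ ν, Cert (fun i => jet τ ξ (e' i)) (fun p => jet τ ξ (x' p))
      (fun p => jet τ ξ (y' p)) (fun p => (n p : ℤ)) ν := by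
    have g1 : IsCoprime (A'.map (jet τ ξ)) (B'.map (jet τ ξ)) := coprime_lift (by
      rw [Polynomial.map_map, Polynomial.map_map, ev_jet, a2, b2]
      exact co)
    have g2 : A'.map (jet τ ξ) ^ 2 - fz (fun i => jet τ ξ (e' i)) * B'.map (jet τ ξ) ^ 2 =
        C (jet τ ξ c') * ∏ p, (X - C (jet τ ξ (x' p))) ^ (n p : ℤ).natAbs := by
      have := jetP_congr (ξ := ξ) (P := A' ^ 2 - fz e' * B' ^ 2)
        (Q := C c' * ∏ p, (X - C (x' p)) ^ n p) (h2.mono fun t q => by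
          simp only [Polynomial.map_sub, Polynomial.map_mul, Polynomial.map_pow, a2, b2, fe,
            Polynomial.map_prod, map_C, map_X]
          exact q)
      simpa only [Polynomial.map_sub, Polynomial.map_mul, Polynomial.map_pow, fz_map,
        Polynomial.map_prod, map_C, map_X, Int.natAbs_natCast] using this
    have g3 : (A'.map (jet τ ξ)).degree ≤ (m + 4 : ℕ) :=
      degree_le_of_natDegree_le (natDegree_map_le.trans a1)
    have g4 : (B'.map (jet τ ξ)).degree < ((m + 4 - 3 : ℕ) : WithBot ℕ) :=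
      (degree_le_of_natDegree_le (natDegree_map_le.trans b1)).trans_lt
        (Nat.cast_lt.2 (by omega))
    have g5 : ∀ p, 0 < (n p : ℤ) → (A'.map (jet τ ξ)).eval (jet τ ξ (x' p)) +
        (B'.map (jet τ ξ)).eval (jet τ ξ (x' p)) * jet τ ξ (y' p) = 0 := fun p hp => by
      rw [eval_ev, eval_ev, ← map_mul, ← map_add, ← map_zero (jet τ ξ)]
      refine jet_congr (h3.mono fun t q => ?_)
      rw [map_add, map_mul, ← eval_ev, ← eval_ev, a2, b2, map_zero]
      exact q p (by omega)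
    have g6 : ∀ p, (n p : ℤ) < 0 → (A'.map (jet τ ξ)).eval (jet τ ξ (x' p)) -
        (B'.map (jet τ ξ)).eval (jet τ ξ (x' p)) * jet τ ξ (y' p) = 0 := fun p hp => by omega
    rcases top with h | ⟨h, σ, s1, s2⟩
    · exact ⟨0, _, _, m + 4, _, g1, jet_unit c0, g2, g3, g4, g5, g6,
        .inl ⟨rfl, by simpa using h⟩⟩
    refine ⟨_, _, _, m + 4, _, g1, jet_unit c0, g2, g3, g4, g5, g6,
      .inr ⟨by omega, ?_, σ, s1, ?_, rfl⟩⟩
    · rw [Nat.add_sub_cancel, coeff_map]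
      refine jet_unit ?_
      rwa [← b2, coeff_map] at h
    · rw [Nat.add_sub_cancel, coeff_map, coeff_map, ← map_intCast (jet τ ξ), ← map_mul]
      refine jet_congr (s2.mono fun t q => ?_)
      rw [map_mul, map_intCast, ← coeff_map, ← coeff_map, a2, b2, q]
  obtain ⟨ν, cert⟩ := cert
  have := hB _ ι JD _ _ _ _ ν Γ Λ pts cert pr hΓ j
  have e0 : BtI Λ (fun i => JD.ev (jet τ ξ (e' i))) (fun i => JD.dt (jet τ ξ (e' i))) j = 0 := hI j
  rw [BtE, e0, mul_zero, add_zero] at this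
  simp only [Int.cast_natCast] at this
  exact this

end

end Pool.Agent.MP_8d06cc_nt.ISO
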