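import Pool.Agent.MP_8d06cc_nt.ISO.Est

/-! Equal moving zeros give solutions of the Pell equations. -/

namespace Pool.Agent.MP_8d06cc_nt.ISO

open Filter Topology Polynomial
open AB

noncomputable section

lemma lim_div {α : Type} {l : Filter α} {P Q D : α → ℂ[X]} {P0 Q0 D0 : ℂ[X]} {n : ℕ}
    (e : ∀ᶠ t in l, (D t).Monic ∧ (D t).natDegree = 8 ∧ D t * Q t = P t ∧ (Q t).natDegree ≤ n)
    (e0 : D0.Monic ∧ D0.natDegree = 8 ∧ D0 * Q0 = P0 ∧ Q0.natDegree ≤ n)
    (lD : ∀ i, Tendsto (fun t => (D t).coeff i) l (𝓝 (D0.coeff i)))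
    (lP : ∀ i, Tendsto (fun t => (P t).coeff i) l (𝓝 (P0.coeff i))) (i : ℕ) :
    Tendsto (fun t => (Q t).coeff i) l (𝓝 (Q0.coeff i)) := by
  have key : ∀ {P Q D : ℂ[X]} (i : ℕ), D.Monic → D.natDegree = 8 → D * Q = P → Q.coeff i =
      P.coeff (8 + i) - ∑ z ∈ (Finset.HasAntidiagonal.antidiagonal (8 + i)).erase (8, i),
        if i < z.2 then D.coeff z.1 * Q.coeff z.2 else 0 := fun {P Q D} i h1 h2 h3 => by
    rw [← h3, coeff_mul, ← Finset.add_sum_erase _ _ (a := (8, i)) (by simp)]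
    have : D.coeff 8 = 1 := h2 ▸ h1.coeff_natDegree
    rw [this, one_mul, add_sub_assoc, ← Finset.sum_sub_distrib, Finset.sum_eq_zero, add_zero]
    intro z hz
    split_ifs with q
    · exact sub_self _
    · have a1 := Finset.HasAntidiagonal.mem_antidiagonal.1 (Finset.mem_of_mem_erase hz)
      have a2 : ¬ (z.1 = 8 ∧ z.2 = i) := fun h => Finset.ne_of_mem_erase hz (Prod.ext h.1 h.2)
      rw [coeff_eq_zero_of_natDegree_lt (by omega), zero_mul, sub_zero]
  induction' h : n + 1 - i using Nat.strong_induction_on with k ih generalizing i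
  by_cases q : n < i
  · rw [coeff_eq_zero_of_natDegree_lt (e0.2.2.2.trans_lt q)]
    exact tendsto_const_nhds.congr' (e.mono fun t r =>
      (coeff_eq_zero_of_natDegree_lt (r.2.2.2.trans_lt q)).symm)
  rw [key i e0.1 e0.2.1 e0.2.2.1]
  refine Tendsto.congr' (e.mono fun t r => (key i r.1 r.2.1 r.2.2.1).symm)
    ((lP _).sub (tendsto_finsetSum _ fun z _ => ?_))
  split_ifs with r
  · exact (lD _).mul (ih _ (by omega) z.2 rfl)
  · exact tendsto_const_nhds

lemma deg_div {D Q : ℂ[X]} {n : ℕ} (h1 : D.Monic) (h2 : D.natDegree = 8)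
    (h : (D * Q).natDegree ≤ n + 8) : Q.natDegree ≤ n := by
  by_cases q : Q = 0
  · simp [q]
  · rw [h1.natDegree_mul' q] at h
    omega

variable {T : Type} [NormedAddCommGroup T] [NormedSpace ℂ T] {τ₀ : T}

theorem pell (G : Base τ₀) {a₀ b₀ a b : T → ℂ} {c : ℂ} {k N : ℕ} {A' B' : ℂ[X]}
    (H : Out G a₀ b₀ (-1) 0 0 (-C G.lam) 1)
    (O : Out G a b (-c) k N (B' * fz (G.e τ₀) - C G.lam * A') (A' - C G.lam * B'))
    (ab : ∀ᶠ t in 𝓝 τ₀, b t ^ 2 = (fz (G.e t)).eval (a t)) (dA : A'.natDegree ≤ N)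
    (dB : B'.natDegree + 4 ≤ N) {l : Filter T} (hl : l ≤ 𝓝 τ₀) (hx : ∀ᶠ t in l, O.x t = H.x t) :
    ∃ A B : T → ℂ[X], (∀ i, Tendsto (fun t => (A t).coeff i) l (𝓝 (A'.coeff i))) ∧
      (∀ i, Tendsto (fun t => (B t).coeff i) l (𝓝 (B'.coeff i))) ∧
      ∀ᶠ t in l, (A t).natDegree ≤ N ∧ (B t).natDegree + 4 ≤ N ∧
        A t ^ 2 - fz (G.e t) * B t ^ 2 = C c * (X - C (a t)) ^ k ∧
        (k ≠ 0 → (A t).eval (a t) ≠ 0 ∧ (A t).eval (a t) + (B t).eval (a t) * b t = 0) := by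
  let D : T → ℂ[X] := fun t => ∏ p, (X - C (H.x t p))
  let P : T → ℂ[X] := fun t => fz (G.e t) * O.B t * H.B t - O.A t * H.A t
  let Q : T → ℂ[X] := fun t => O.A t * H.B t - O.B t * H.A t
  have D1 : ∀ t, (D t).Monic := fun t => monic_prod_of_monic _ _ fun _ _ => monic_X_sub_C _
  have D2 : ∀ t, (D t).natDegree = 8 := fun t => prod_deg _
  have D0 : D τ₀ = fz (G.e τ₀) - C (G.lam ^ 2) := by simp only [D, H.x0, G.fr]
  have sD : Sm D τ₀ := Sm.prod _ fun p _ => Sm.lin (H.sx p)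
  have sP : Sm P τ₀ := ((G.sf.mul O.sB).mul H.sB).sub (O.sA.mul H.sA)
  have sQ : Sm Q τ₀ := (O.sA.mul H.sB).sub (O.sB.mul H.sA)
  have lm : ∀ {p : T → ℂ[X]}, Sm p τ₀ → ∀ i, Tendsto (fun t => (p t).coeff i) l
      (𝓝 ((p τ₀).coeff i)) := fun h i => (h i).continuousAt.tendsto.mono_left hl
  have dP : ∀ t, (P t).natDegree ≤ N + 8 := fun t => by
    have n1 := natDegree_sub_le (fz (G.e t) * O.B t * H.B t) (O.A t * H.A t)
    have n2 := natDegree_mul_le (p := fz (G.e t) * O.B t) (q := H.B t)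
    have n3 := natDegree_mul_le (p := fz (G.e t)) (q := O.B t)
    have n4 := natDegree_mul_le (p := O.A t) (q := H.A t)
    have n5 := O.deg t
    have n6 := H.deg t
    have n7 := fz_deg (G.e t)
    simp only [P]
    omega
  have dQ : ∀ t, (Q t).natDegree ≤ N - 4 + 8 := fun t => by
    have n1 := natDegree_sub_le (O.A t * H.B t) (O.B t * H.A t)
    have n2 := natDegree_mul_le (p := O.A t) (q := H.B t)
    have n3 := natDegree_mul_le (p := O.B t) (q := H.A t)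
    have n5 := O.deg t
    have n6 := H.deg t
    simp only [Q]
    omega
  have dv : ∀ᶠ t in l, D t * (P t / D t) = P t ∧ D t * (Q t / D t) = Q t := by
    filter_upwards [hx, hl O.sg, hl H.sg, hl H.S2, hl H.ix] with t q1 q2 q3 q4 q5
    rw [q1] at q2
    refine ⟨EuclideanDomain.mul_div_cancel' (D1 t).ne_zero ?_,
      EuclideanDomain.mul_div_cancel' (D1 t).ne_zero ?_⟩ <;>
    refine Fintype.prod_dvd_of_coprime (pairwise_coprime_X_sub_C q5.1) fun p =>
      dvd_iff_isRoot.2 ?_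
    · simp only [IsRoot, P, eval_sub, eval_mul, ← q4 p]
      linear_combination (-(H.A t).eval (H.x t p)) * q2 p +
        (O.B t).eval (H.x t p) * G.S (t, H.x t p) * q3 p
    · simp only [IsRoot, Q, eval_sub, eval_mul]
      linear_combination (H.B t).eval (H.x t p) * q2 p - (O.B t).eval (H.x t p) * q3 p
  refine ⟨fun t => P t / D t, fun t => Q t / D t, lim_div (n := N) (dv.mono fun t q =>
    ⟨D1 t, D2 t, q.1, deg_div (D1 t) (D2 t) (q.1.symm ▸ dP t)⟩) ⟨D1 _, D2 _, ?_, dA⟩ (lm sD)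
      (lm sP), lim_div (n := N - 4) (dv.mono fun t q =>
    ⟨D1 t, D2 t, q.2, deg_div (D1 t) (D2 t) (q.2.symm ▸ dQ t)⟩) ⟨D1 _, D2 _, ?_, by omega⟩ (lm sD)
      (lm sQ), ?_⟩
  · simp only [D0, P, O.A0, O.B0, H.A0, H.B0, map_pow]
    ring
  · simp only [D0, Q, O.A0, O.B0, H.A0, H.B0, map_pow]
    ring
  filter_upwards [dv, hx, hl O.eqn, hl H.eqn, hl O.ix, hl ab,
    hl (eventually_imp_distrib_left.2 O.sa)] with t q1 q2 q3 q4 q5 q6 q7
  have n1 := deg_div (D1 t) (D2 t) (q1.1.symm ▸ dP t)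
  have n2 := deg_div (D1 t) (D2 t) (q1.2.symm ▸ dQ t)
  rw [q2] at q3 q5
  generalize P t / D t = A at *
  generalize Q t / D t = B at *
  obtain ⟨e1, e2⟩ := q1
  simp only [P, Q] at e1 e2
  have q4' : H.A t ^ 2 - fz (G.e t) * H.B t ^ 2 = -D t := by simpa [D] using q4
  have q3' : O.A t ^ 2 - fz (G.e t) * O.B t ^ 2 = -(C c * (X - C (a t)) ^ k) * D t := by
    simpa [D] using q3
  refine ⟨n1, by omega, mul_left_cancel₀ (pow_ne_zero 2 (D1 t).ne_zero) ?_, fun k0 => ?_⟩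
  · linear_combination (D t * A + (fz (G.e t) * O.B t * H.B t - O.A t * H.A t)) * e1 -
      fz (G.e t) * (D t * B + (O.A t * H.B t - O.B t * H.A t)) * e2 +
      (O.A t ^ 2 - fz (G.e t) * O.B t ^ 2) * q4' - D t * q3'
  have t0 : (D t).eval (a t) ≠ 0 := by
    simp only [D, eval_prod, eval_sub, eval_X, eval_C]
    exact Finset.prod_ne_zero_iff.2 fun p _ => sub_ne_zero.2 (q5.2 p).symm
  have v1 := congrArg (eval (a t)) e1
  have v2 := congrArg (eval (a t)) e2
  have v3 := congrArg (eval (a t)) q4'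
  simp only [eval_mul, eval_sub, eval_pow, eval_neg, ← q6] at v1 v2 v3
  obtain ⟨v4, v5⟩ := q7 k0
  refine ⟨fun z => mul_ne_zero v4 t0 ?_, mul_left_cancel₀ t0 ?_⟩
  · rw [z] at v1
    linear_combination (O.A t).eval (a t) * v3 -
      ((H.A t).eval (a t) - (H.B t).eval (a t) * b t) * (v1 + (H.B t).eval (a t) * b t * v5)
  · linear_combination v1 + b t * v2 + ((H.B t).eval (a t) * b t - (H.A t).eval (a t)) * v5

/-- the choice of the level `lam` -/
theorem base {e : T → Fin 8 → ℂ} (he : ∀ i, ContDiffAt ℂ 1 (fun t => e t i) τ₀)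
    (ie : Function.Injective (e τ₀)) {n : ℕ} (a : Fin n → ℂ) :
    ∃ G : Base τ₀, G.e = e ∧ ∀ i, G.lam ^ 2 ≠ (fz (e τ₀)).eval (a i) := by
  classical
  obtain ⟨μ, hμ⟩ := Infinite.exists_notMem_finset (insert 0 ((Finset.univ.image a ∪
    (derivative (fz (e τ₀))).roots.toFinset).image fun z => (fz (e τ₀)).eval z))
  simp only [Finset.mem_insert, Finset.mem_image, Finset.mem_union, Finset.mem_univ, true_and,
    Multiset.mem_toFinset, not_or, not_exists, not_and] at hμ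
  obtain ⟨lam, rfl⟩ := IsAlgClosed.exists_pow_nat_eq μ two_pos
  have l0 : lam ≠ 0 := fun z => hμ.1 (by simp [z])
  have g1 : (fz (e τ₀) - C (lam ^ 2)).Monic := (fz_monic _).sub_of_left
    (degree_C_le.trans_lt (natDegree_pos_iff_degree_pos.1 (by rw [fz_deg]; omega)))
  have g2 : (fz (e τ₀) - C (lam ^ 2)).natDegree = 8 := by rw [natDegree_sub_C, fz_deg]
  have g3 : (fz (e τ₀) - C (lam ^ 2)).Separable := cop fun z h1 h2 => by
    rw [derivative_sub, derivative_C, sub_zero] at h2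
    rw [eval_sub, eval_C, sub_eq_zero] at h1
    exact hμ.2 z (.inr ((mem_roots (derivative_ne_zero.2 (by rw [fz_deg]; omega))).2 h2)) h1
  let φ : J8 ≃ (fz (e τ₀) - C (lam ^ 2)).rootSet ℂ := Fintype.equivOfCardEq (by
    rw [card_rootSet_eq_natDegree g3 (IsAlgClosed.splits _), g2]
    rfl)
  have ir : Function.Injective fun p => (φ p : ℂ) := Subtype.val_injective.comp φ.injective
  have r0 : ∀ p, (fz (e τ₀) - C (lam ^ 2)).eval (φ p : ℂ) = 0 := fun p =>
    aeval_eq_zero_of_mem_rootSet (φ p).2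
  have r1 : ∀ p, (fz (e τ₀)).eval (φ p : ℂ) / lam ^ 2 = 1 := fun p => by
    have := r0 p
    rw [eval_sub, eval_C, sub_eq_zero] at this
    rw [this, div_self (pow_ne_zero 2 l0)]
  have cf : ∀ r : ℂ, ContDiffAt ℂ 1 (fun z : T × ℂ => (fz (e z.1)).eval z.2 / lam ^ 2) (τ₀, r) :=
    fun r => (Sm.eval (n := 8) (Sm.comp (g := Prod.fst) (s := (τ₀, r))
      (Sm.prod _ fun i _ => Sm.lin (he i)) contDiffAt_fst) (.of_forall fun _ => (fz_deg _).le)
      contDiffAt_snd).div_const _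
  refine ⟨⟨e, lam, fun p => φ p, fun z => lam * Complex.exp
    (Complex.log ((fz (e z.1)).eval z.2 / lam ^ 2) / 2), he, ie, l0, ir, ?_, fun p => ?_,
    fun p => ?_, fun p => ?_⟩, rfl, fun i h => hμ.2 (a i) (.inl ⟨i, rfl⟩) h.symm⟩
  · refine eq_of_monic_of_dvd_of_natDegree_le (monic_prod_of_monic _ _ fun _ _ => monic_X_sub_C _)
      g1 (Fintype.prod_dvd_of_coprime (pairwise_coprime_X_sub_C ir) fun p =>
        dvd_iff_isRoot.2 (r0 p)) ?_
    rw [g2, prod_deg]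
    rfl
  · refine contDiffAt_const.mul (ContDiffAt.div_const (ContDiffAt.comp (g := Complex.log) _
      (Complex.contDiffAt_log ?_) (cf _)) _).cexp
    rw [r1]
    exact Complex.one_mem_slitPlane
  · simp [r1]
  · filter_upwards [(cf (φ p)).continuousAt.eventually_ne (by rw [r1]; exact one_ne_zero)] with z q
    rw [mul_pow, ← Complex.exp_nat_mul, Nat.cast_ofNat, mul_div_cancel₀ _ two_ne_zero,
      Complex.exp_log q, mul_div_cancel₀ _ (pow_ne_zero 2 l0)]

end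

end Pool.Agent.MP_8d06cc_nt.ISO
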