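import Pool.Agent.MP_8d06cc_nt.ISO.Def
import Pool.Agent.MP_8d06cc_nt.ISO.Jet

/-! The deformed functions with five fixed zeros and three moving zeros. -/

namespace Pool.Agent.MP_8d06cc_nt.ISO

open Filter Topology Polynomial
open AB

noncomputable section

variable {T : Type} [NormedAddCommGroup T] [NormedSpace ℂ T] {τ₀ : T}

/-- the index set of the eight zeros -/
abbrev J8 : Type := Fin 5 ⊕ Fin 3

/-- the derivative of a function in a direction -/
abbrev dd (g : T → ℂ) (t ξ : T) : ℂ := fderiv ℂ g t ξ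

/-- A family of octics with the eight zeros of `y - lam` and a branch of `y` near them. -/
structure Base (τ₀ : T) where
  e : T → Fin 8 → ℂ
  lam : ℂ
  r : J8 → ℂ
  S : T × ℂ → ℂ
  he : ∀ i, ContDiffAt ℂ 1 (fun t => e t i) τ₀
  ie : Function.Injective (e τ₀)
  l0 : lam ≠ 0
  ir : Function.Injective r
  fr : fz (e τ₀) - C (lam ^ 2) = ∏ p, (X - C (r p))
  hS : ∀ p, ContDiffAt ℂ 1 S (τ₀, r p)
  S0 : ∀ p, S (τ₀, r p) = lam
  S2 : ∀ p, ∀ᶠ z in 𝓝 (τ₀, r p), S z ^ 2 = (fz (e z.1)).eval z.2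

/-- The deformed function. -/
structure Out (G : Base τ₀) (a b : T → ℂ) (c : ℂ) (k m : ℕ) (A₀ B₀ : ℂ[X]) where
  A : T → ℂ[X]
  B : T → ℂ[X]
  x : T → J8 → ℂ
  sA : Sm A τ₀
  sB : Sm B τ₀
  sx : ∀ p, ContDiffAt ℂ 1 (fun t => x t p) τ₀
  A0 : A τ₀ = A₀
  B0 : B τ₀ = B₀
  x0 : x τ₀ = G.r
  xl : ∀ t q, x t (.inl q) = G.r (.inl q)
  deg : ∀ t, (A t).natDegree ≤ m + 4 ∧ (B t).natDegree ≤ m
  eqn : ∀ᶠ t in 𝓝 τ₀, A t ^ 2 - fz (G.e t) * B t ^ 2 =
    C c * (X - C (a t)) ^ k * ∏ p, (X - C (x t p))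
  sg : ∀ᶠ t in 𝓝 τ₀, ∀ p, (A t).eval (x t p) + (B t).eval (x t p) * G.S (t, x t p) = 0
  sa : k ≠ 0 → ∀ᶠ t in 𝓝 τ₀, (A t).eval (a t) ≠ 0 ∧ (A t).eval (a t) + (B t).eval (a t) * b t = 0
  ix : ∀ᶠ t in 𝓝 τ₀, Function.Injective (x t) ∧ ∀ p, x t p ≠ a t
  S2 : ∀ᶠ t in 𝓝 τ₀, ∀ p, G.S (t, x t p) ^ 2 = (fz (G.e t)).eval (x t p)
  rel : ∀ᶠ t in 𝓝 τ₀, ∀ (ξ : T) (Γ : Set ℂ) (Λ : (ℂ → ℂ) → Fin 3 → ℂ), Proj (fz (G.e t)) Γ Λ →
    (∀ p, x t p ∉ Γ) → a t ∉ Γ → (∀ j, BtI Λ (G.e t) (fun i => dd (G.e · i) t ξ) j = 0) →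
    (∀ j, Bt Λ (G.e t) (fun i => dd (G.e · i) t ξ) (a t) (b t) (dd a t ξ) j = 0) → ∀ j,
    ∑ p, Bt Λ (G.e t) (fun i => dd (G.e · i) t ξ) (x t p) (G.S (t, x t p))
      (dd (x · p) t ξ) j = 0

lemma fz_monic (e : Fin 8 → ℂ) : (fz e).Monic := monic_prod_of_monic _ _ fun _ _ => monic_X_sub_C _

lemma prod_deg {ι : Type} [Fintype ι] (x : ι → ℂ) :
    (∏ p, (X - C (x p))).natDegree = Fintype.card ι := by
  rw [natDegree_prod_of_monic _ _ fun _ _ => monic_X_sub_C _]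
  simp

lemma fz_deg (e : Fin 8 → ℂ) : (fz e).natDegree = 8 := by
  rw [fz, prod_deg, Fintype.card_fin]

lemma Base.sf (G : Base τ₀) : Sm (fun t => fz (G.e t)) τ₀ := Sm.prod _ fun i _ => Sm.lin (G.he i)

omit [NormedSpace ℂ T] in
lemma ev_ne {g : T → ℂ} (h : ContinuousAt g τ₀) (h0 : g τ₀ ≠ 0) : ∀ᶠ t in 𝓝 τ₀, g t ≠ 0 :=
  h.eventually_ne h0

omit [NormedSpace ℂ T] in
lemma ev_inj {ι : Type} [Fintype ι] {x : T → ι → ℂ} (h : ∀ p, ContinuousAt (fun t => x t p) τ₀)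
    (h0 : Function.Injective (x τ₀)) : ∀ᶠ t in 𝓝 τ₀, Function.Injective (x t) := by
  have : ∀ᶠ t in 𝓝 τ₀, ∀ p q, p ≠ q → x t p - x t q ≠ 0 :=
    eventually_all.2 fun p => eventually_all.2 fun q => by
      by_cases e : p = q
      · exact .of_forall fun _ h => (h e).elim
      · exact (ev_ne ((h p).sub (h q)) (sub_ne_zero.2 (h0.ne e))).mono fun _ h _ => h
  exact this.mono fun t h p q e => by_contra fun n => h p q n (sub_eq_zero.2 e)

omit [NormedSpace ℂ T] in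
lemma sign {u v : T → ℂ} (hu : ContinuousAt u τ₀) (hv : ContinuousAt v τ₀) (u0 : u τ₀ ≠ 0)
    (h0 : u τ₀ + v τ₀ = 0) (h : ∀ᶠ t in 𝓝 τ₀, u t ^ 2 = v t ^ 2) :
    ∀ᶠ t in 𝓝 τ₀, u t ≠ 0 ∧ u t + v t = 0 := by
  have := ev_ne (g := fun t => u t - v t) (hu.sub hv) fun q : u τ₀ - v τ₀ = 0 =>
    u0 (by linear_combination (h0 + q) / 2)
  filter_upwards [this, h, ev_ne hu u0] with t h1 h2 h3
  exact ⟨h3, mul_right_cancel₀ h1 (by linear_combination h2)⟩

lemma top_coeff {f A B : ℂ[X]} {m : ℕ} (f1 : f.Monic) (f2 : f.natDegree = 8)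
    (dA : A.natDegree ≤ m + 4) (dB : B.natDegree ≤ m) :
    (A ^ 2 - f * B ^ 2).coeff (2 * m + 8) = A.coeff (m + 4) ^ 2 - B.coeff m ^ 2 := by
  have h1 := coeff_pow_of_natDegree_le (m := 2) dA
  have h2 := coeff_pow_of_natDegree_le (m := 2) dB
  have h3 := coeff_mul_add_eq_of_natDegree_le f2.le
    (natDegree_pow_le.trans (Nat.mul_le_mul_left 2 dB))
  rw [coeff_sub, show 2 * m + 8 = 2 * (m + 4) by ring, h1, show 2 * (m + 4) = 8 + 2 * m by ring,
    h3, h2, ← f2, f1.coeff_natDegree, one_mul]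

lemma rhs_monic (a : ℂ) (k : ℕ) (x : J8 → ℂ) : ((X - C a) ^ k * ∏ p, (X - C (x p))).Monic :=
  ((monic_X_sub_C a).pow k).mul (monic_prod_of_monic _ _ fun _ _ => monic_X_sub_C _)

lemma rhs_deg (a : ℂ) (k : ℕ) (x : J8 → ℂ) :
    ((X - C a) ^ k * ∏ p, (X - C (x p))).natDegree = k + 8 := by
  rw [((monic_X_sub_C a).pow k).natDegree_mul (monic_prod_of_monic _ _ fun _ _ => monic_X_sub_C _),
    prod_deg, (monic_X_sub_C a).natDegree_pow]
  simp

lemma rhs_root {c a z : ℂ} {k : ℕ} {x : J8 → ℂ} (c0 : c ≠ 0)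
    (h : (C c * (X - C a) ^ k * ∏ p, (X - C (x p))).eval z = 0) :
    (k ≠ 0 ∧ z = a) ∨ ∃ p, z = x p := by
  simp only [eval_mul, eval_C, eval_pow, eval_sub, eval_X, eval_prod, mul_eq_zero, c0, false_or,
    pow_eq_zero_iff', Finset.prod_eq_zero_iff, sub_eq_zero] at h
  rcases h with h | ⟨p, -, h⟩
  exacts [.inl ⟨h.2, h.1⟩, .inr ⟨p, h⟩]

lemma rhs_x (c a : ℂ) (k : ℕ) (x : J8 → ℂ) (p : J8) :
    (C c * (X - C a) ^ k * ∏ p, (X - C (x p))).eval (x p) = 0 := by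
  rw [eval_mul, eval_prod, Finset.prod_eq_zero (Finset.mem_univ p) (by simp), mul_zero]

lemma cop {P A : ℂ[X]} (h : ∀ z, P.eval z = 0 → A.eval z ≠ 0) : IsCoprime P A :=
  (Polynomial.isCoprime_iff_aeval_ne_zero_of_isAlgClosed ℂ ℂ P A).2 fun z => by
    simpa only [coe_aeval_eq_eval, imp_iff_not_or] using h z

lemma ev_diff {g : T → ℂ} (h : ContDiffAt ℂ 1 g τ₀) : ∀ᶠ t in 𝓝 τ₀, DifferentiableAt ℂ g t :=
  (h.eventually (by simp)).mono fun _ q => q.differentiableAt one_ne_zero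

lemma Sm.ev_diff {p : T → ℂ[X]} {n : ℕ} (h : Sm p τ₀) (d : ∀ t, (p t).natDegree ≤ n) :
    ∀ᶠ t in 𝓝 τ₀, ∀ k, DifferentiableAt ℂ (fun t => (p t).coeff k) t := by
  filter_upwards [eventually_all.2 fun k : Fin (n + 1) => ISO.ev_diff (h k)] with t q k
  by_cases l : k < n + 1
  · exact q ⟨k, l⟩
  · have : (fun t => (p t).coeff k) = fun _ => 0 :=
      funext fun t => coeff_eq_zero_of_natDegree_lt (by have := d t; omega)
    rw [this]
    exact differentiableAt_const _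

theorem pkg [CompleteSpace T] (hB : StmtBREL) (G : Base τ₀) {a b : T → ℂ} {c : ℂ} {k m : ℕ}
    {A₀ B₀ : ℂ[X]} (ha : ContDiffAt ℂ 1 a τ₀) (hb : ContDiffAt ℂ 1 b τ₀) (b0 : b τ₀ ≠ 0)
    (ab : ∀ᶠ t in 𝓝 τ₀, b t ^ 2 = (fz (G.e t)).eval (a t)) (ar : ∀ p, G.r p ≠ a τ₀) (c0 : c ≠ 0)
    (dA : A₀.natDegree ≤ m + 4) (dB : B₀.natDegree ≤ m)
    (e0 : A₀ ^ 2 - fz (G.e τ₀) * B₀ ^ 2 = C c * (X - C (a τ₀)) ^ k * ∏ p, (X - C (G.r p)))
    (h1 : ∀ p, A₀.eval (G.r p) ≠ 0) (h2 : ∀ p, A₀.eval (G.r p) + B₀.eval (G.r p) * G.lam = 0)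
    (h3 : k ≠ 0 → A₀.eval (a τ₀) ≠ 0 ∧ A₀.eval (a τ₀) + B₀.eval (a τ₀) * b τ₀ = 0)
    (top : k = 2 * m ∨ (k < 2 * m ∧ B₀.coeff m ≠ 0)) : Nonempty (Out G a b c k m A₀ B₀) := by
  let U : T → ℂ[X] := fun t => C c * (X - C (a t)) ^ k * ∏ q : Fin 5, (X - C (G.r (.inl q)))
  have sp : ∀ t (x : Fin 3 → ℂ), U t * cub x = C c * (X - C (a t)) ^ k *
      ∏ p : J8, (X - C (Sum.elim (fun q => G.r (.inl q)) x p)) := fun t x => by
    simp only [U, cub, Fintype.prod_sum_type, Sum.elim_inl, Sum.elim_inr, mul_assoc]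
  have r0 : (Sum.elim (fun q => G.r (.inl q)) fun q => G.r (.inr q)) = G.r :=
    funext fun p => by cases p <;> rfl
  have tc : ∀ (t : T) (x : J8 → ℂ), (C c * (X - C (a t)) ^ k * ∏ p, (X - C (x p))).coeff
      (2 * m + 8) = if k = 2 * m then c else 0 := fun t x => by
    rw [mul_assoc, coeff_C_mul]
    split_ifs with q
    · rw [← q, ← rhs_deg (a t) k x, (rhs_monic _ _ _).coeff_natDegree, mul_one]
    · rw [coeff_eq_zero_of_natDegree_lt (by rw [rhs_deg]; omega), mul_zero]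
  have t0 := (top_coeff (fz_monic _) (fz_deg _) dA dB).symm.trans ((congrArg (coeff · _) e0).trans
    (tc τ₀ G.r))
  obtain ⟨A, B, x', sA, sB, sx', A0, B0, x0', deg, eqn⟩ := defo (U := U) (m := m) (A₀ := A₀)
    (B₀ := B₀) (x₀ := fun q => G.r (.inr q)) G.sf
    (((Sm.const _).mul ((Sm.lin ha).pow k)).mul (Sm.const _)) (fun t => fz_deg _)
    (fun t => by
      have n1 := natDegree_mul_le (p := C c * (X - C (a t)) ^ k)
        (q := ∏ q : Fin 5, (X - C (G.r (.inl q))))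
      have n2 := natDegree_C_mul_le c ((X - C (a t)) ^ k)
      rw [(monic_X_sub_C _).natDegree_pow, natDegree_X_sub_C] at n2
      rw [prod_deg, Fintype.card_fin] at n1
      change (C c * (X - C (a t)) ^ k * ∏ q : Fin 5, (X - C (G.r (.inl q)))).natDegree ≤ _
      omega)
    (by rw [sp, r0, e0])
    (by
      rw [sp, r0]
      refine cop fun z hz => ?_
      rcases rhs_root c0 hz with ⟨q, rfl⟩ | ⟨p, rfl⟩
      exacts [(h3 q).1, h1 p])
    (mul_ne_zero (mul_ne_zero (C_ne_zero.2 c0) (pow_ne_zero _ (X_sub_C_ne_zero _)))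
      (Finset.prod_ne_zero_iff.2 fun _ _ => X_sub_C_ne_zero _)) dA dB
    (by
      rcases top with q | q
      · rw [if_pos q] at t0
        by_contra n
        push Not at n
        exact c0 (by rw [← t0, n.1, n.2]; simp)
      · exact .inr q.2)
    (G.ir.comp Sum.inr_injective)
  let x : T → J8 → ℂ := fun t => Sum.elim (fun q => G.r (.inl q)) (x' t)
  have x0 : x τ₀ = G.r := by simp only [x, x0', r0]
  have sx : ∀ p, ContDiffAt ℂ 1 (fun t => x t p) τ₀ := fun p => by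
    cases p with
    | inl q => exact contDiffAt_const
    | inr q => exact contDiffAt_pi.1 sx' q
  replace eqn : ∀ᶠ t in 𝓝 τ₀, A t ^ 2 - fz (G.e t) * B t ^ 2 =
      C c * (X - C (a t)) ^ k * ∏ p, (X - C (x t p)) := eqn.mono fun t q => q.trans (sp t _)
  have px : ∀ p, ContDiffAt ℂ 1 (fun t => (t, x t p)) τ₀ := fun p => contDiffAt_id.prodMk (sx p)
  have sy : ∀ p, ContDiffAt ℂ 1 (fun t => G.S (t, x t p)) τ₀ := fun p =>
    ContDiffAt.comp (g := G.S) τ₀ (by rw [x0]; exact G.hS p) (px p)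
  have S2 : ∀ᶠ t in 𝓝 τ₀, ∀ p, G.S (t, x t p) ^ 2 = (fz (G.e t)).eval (x t p) :=
    eventually_all.2 fun p => (px p).continuousAt.eventually
      (p := fun z => G.S z ^ 2 = (fz (G.e z.1)).eval z.2) (by simp only [x0]; exact G.S2 p)
  have y0 : ∀ p, G.S (τ₀, x τ₀ p) = G.lam := fun p => by rw [x0, G.S0]
  have cA : ∀ {z : T → ℂ}, ContDiffAt ℂ 1 z τ₀ → ContinuousAt (fun t => (A t).eval (z t)) τ₀ :=
    fun h => (sA.eval (.of_forall fun t => (deg t).1) h).continuousAt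
  have cB : ∀ {z : T → ℂ}, ContDiffAt ℂ 1 z τ₀ → ContinuousAt (fun t => (B t).eval (z t)) τ₀ :=
    fun h => (sB.eval (.of_forall fun t => (deg t).2) h).continuousAt
  have sg : ∀ᶠ t in 𝓝 τ₀, ∀ p, (A t).eval (x t p) ≠ 0 ∧
      (A t).eval (x t p) + (B t).eval (x t p) * G.S (t, x t p) = 0 := eventually_all.2 fun p =>
    sign (cA (sx p)) ((cB (sx p)).mul (sy p).continuousAt) (by rw [A0, x0]; exact h1 p)
      (by rw [y0, A0, B0, x0]; exact h2 p) (by
        filter_upwards [eqn, S2] with t q1 q2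
        have := (congrArg (eval (x t p)) q1).trans (rhs_x _ _ _ _ p)
        simp only [eval_sub, eval_mul, eval_pow, ← q2 p] at this
        linear_combination this)
  have sa : k ≠ 0 → ∀ᶠ t in 𝓝 τ₀, (A t).eval (a t) ≠ 0 ∧
      (A t).eval (a t) + (B t).eval (a t) * b t = 0 := fun k0 =>
    sign (cA ha) ((cB ha).mul hb.continuousAt) (by rw [A0]; exact (h3 k0).1)
      (by rw [A0, B0]; exact (h3 k0).2) (by
        filter_upwards [eqn, ab] with t q1 q2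
        have := congrArg (eval (a t)) q1
        simp only [eval_sub, eval_mul, eval_pow, ← q2, eval_X, eval_C, sub_self, zero_pow k0,
          mul_zero, zero_mul] at this
        linear_combination this)
  have sa' : ∀ᶠ t in 𝓝 τ₀, k ≠ 0 → (A t).eval (a t) ≠ 0 ∧
      (A t).eval (a t) + (B t).eval (a t) * b t = 0 := eventually_imp_distrib_left.2 sa
  let X' : T → Option J8 → ℂ := fun t p => p.elim (a t) (x t)
  let Y' : T → Option J8 → ℂ := fun t p => p.elim (b t) fun p => G.S (t, x t p)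
  let n : Option J8 → ℕ := fun p => p.elim k fun _ => 1
  have sX : ∀ p, ContDiffAt ℂ 1 (fun t => X' t p) τ₀ := fun p => by
    cases p with
    | none => exact ha
    | some p => exact sx p
  have sY : ∀ p, ContDiffAt ℂ 1 (fun t => Y' t p) τ₀ := fun p => by
    cases p with
    | none => exact hb
    | some p => exact sy p
  have iX : ∀ᶠ t in 𝓝 τ₀, Function.Injective (X' t) := ev_inj (fun p => (sX p).continuousAt) (by
    rintro (_ | p) (_ | q) h
    · rfl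
    · exact (ar q (by rw [← x0]; exact h.symm)).elim
    · exact (ar p (by rw [← x0]; exact h)).elim
    · exact congrArg some (G.ir (by rw [← x0]; exact h)))
  have Y0 : ∀ᶠ t in 𝓝 τ₀, ∀ p, Y' t p ≠ 0 := eventually_all.2 fun p =>
    ev_ne (sY p).continuousAt (by
      cases p with
      | none => exact b0
      | some p => exact (y0 p).trans_ne G.l0)
  have H1 : ∀ᶠ t in 𝓝 τ₀, ∀ p, Y' t p ^ 2 = (fz (G.e t)).eval (X' t p) := by
    filter_upwards [ab, S2] with t q1 q2 p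
    cases p with
    | none => exact q1
    | some p => exact q2 p
  have H2 : ∀ᶠ t in 𝓝 τ₀, A t ^ 2 - fz (G.e t) * B t ^ 2 = C c * ∏ p, (X - C (X' t p)) ^ n p :=
    eqn.mono fun t q => by
      rw [q, Fintype.prod_option, mul_assoc]
      simp only [X', n, Option.elim_none, Option.elim_some, pow_one]
  have H3 : ∀ᶠ t in 𝓝 τ₀, ∀ p, n p ≠ 0 →
      (A t).eval (X' t p) + (B t).eval (X' t p) * Y' t p = 0 := by
    filter_upwards [sg, sa'] with t q1 q2 p hp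
    cases p with
    | none => exact (q2 hp).2
    | some p => exact (q1 p).2
  have H4 : ∀ᶠ τ in 𝓝 τ₀, ∑ p, n p = 2 * (m + 4) ∨ ((B τ).coeff m ≠ 0 ∧ ∃ σ : ℤ,
      (σ = 1 ∨ σ = -1) ∧ ∀ᶠ t in 𝓝 τ, (A t).coeff (m + 4) = σ * (B t).coeff m) := by
    rcases top with q | q
    · refine .of_forall fun _ => .inl ?_
      rw [Fintype.sum_option]
      simp [n]
      omega
    rw [if_neg q.1.ne, ← A0, ← B0] at t0
    have q2 : (B τ₀).coeff m ≠ 0 := B0 ▸ q.2
    obtain ⟨σ, s1, s2⟩ : ∃ σ : ℤ, (σ = 1 ∨ σ = -1) ∧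
        σ * (B τ₀).coeff m + -(A τ₀).coeff (m + 4) = 0 := by
      rcases sq_eq_sq_iff_eq_or_eq_neg.1 (sub_eq_zero.1 t0) with h | h
      · exact ⟨1, .inl rfl, by simp [h]⟩
      · exact ⟨-1, .inr rfl, by simp [h]⟩
    have s3 : (σ : ℂ) ^ 2 = 1 := by rcases s1 with rfl | rfl <;> simp
    have := sign (u := fun t => σ * (B t).coeff m) (v := fun t => -(A t).coeff (m + 4))
      (continuousAt_const.mul (sB m).continuousAt) (sA _).continuousAt.neg
      (mul_ne_zero (fun z => by simp [z] at s3) q2) s2 (eqn.mono fun t h => by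
        have := (top_coeff (fz_monic _) (fz_deg _) (deg t).1 (deg t).2).symm.trans
          ((congrArg (coeff · _) h).trans (tc t _))
        rw [if_neg q.1.ne] at this
        linear_combination (B t).coeff m ^ 2 * s3 - this)
    filter_upwards [this.eventually_nhds, ev_ne (sB m).continuousAt q2] with t l1 l2
    exact .inr ⟨l2, σ, s1, l1.mono fun t h => by linear_combination -h.2⟩
  refine ⟨⟨A, B, x, sA, sB, sx, A0, B0, x0, fun _ _ => rfl, deg, eqn, sg.mono fun t q p => (q p).2,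
    sa, iX.mono fun t q => ⟨fun p p' h => Option.some_injective _ (q h), fun p h =>
      Option.some_ne_none _ (q (a₁ := some p) (a₂ := none) h)⟩, S2, ?_⟩⟩
  filter_upwards [eventually_all.2 fun i => ev_diff (G.he i),
    eventually_all.2 fun p => ev_diff (sX p), eventually_all.2 fun p => ev_diff (sY p),
    sA.ev_diff fun t => (deg t).1, sB.ev_diff fun t => (deg t).2,
    ev_inj (fun i => (G.he i).continuousAt) G.ie, iX, Y0, H1.eventually_nhds, H2.eventually_nhds,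
    H3.eventually_nhds, H4, eqn, sg, sa'] with t d1 d2 d3 d4 d5 i1 i2 i3 q1 q2 q3 q4 q5 q6 q7
    ξ Γ Λ pr g1 g2 hI hP j
  have co : IsCoprime (A t) (B t) := cop fun z z1 z2 => by
    have := congrArg (eval z) q5
    rw [eval_sub, eval_mul, eval_pow, eval_pow, z1, z2] at this
    rcases rhs_root c0 (this.symm.trans (by simp)) with ⟨q, rfl⟩ | ⟨p, rfl⟩
    exacts [(q7 q).1 z1, (q6 p).1 z1]
  have := brel_fam hB d1 d2 d3 d4 d5 deg i1 i2 i3 co c0 q1 q2 q3 q4 pr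
    (by rintro (_ | p); exacts [g2, g1 p]) ξ hI j
  rw [Fintype.sum_option] at this
  simpa only [X', Y', n, Option.elim_none, Option.elim_some, hP j, mul_zero, zero_add,
    Nat.cast_one, one_mul] using this

end

end Pool.Agent.MP_8d06cc_nt.ISO
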